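import Mathlib
import Pool.Agent.helper94.RainbowTwice

set_option autoImplicit false

/-!
# Every length `≥ 2n - 3` implies `n` (`n ≥ 7` odd): basic set-up

`m = 2n - 4 + t` is the least length `≥ 2n - 3` of a rainbow cycle in a colouring with no rainbow
`n`-cycle; the vertices of such a cycle are `v x`, `x : ℤ`, of period `m`; the colour of the edge
`(v g, v (g + 1))` is called colour `g`.
-/

namespace Pool.Agent.helper94.RB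

open Pool.Agent.helper94.Rainbow Pool.Agent.helper94.RainbowTwice

variable {V C : Type} {c : Sym2 V → C} {n t m : ℕ} {v : ℤ → V}

/-- the pair of positions `x`, `y` has colour `g`, i.e. the colour of the cycle edge
`(g, g + 1)` -/
def Col (c : Sym2 V → C) (v : ℤ → V) (x y g : ℤ) : Prop :=
  c s(v x, v y) = c s(v g, v (g + 1))

theorem Col.symm {x y g : ℤ} (h : Col c v x y g) : Col c v y x g := by
  unfold Col at *
  rw [Sym2.eq_swap]; exact h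

theorem Col.edge (x : ℤ) : Col c v x (x + 1) x := rfl

theorem Col.edge' {x y : ℤ} (h : y = x + 1) : Col c v x y x := by
  subst h; rfl

theorem per_dvd (F : Frame c m v) {x y : ℤ} (h : (m : ℤ) ∣ y - x) : v y = v x := by
  obtain ⟨k, hk⟩ := h
  rw [show y = x + m * k by linarith]
  exact F.per_mul x k

/-- shifting positions and labels by multiples of `m` -/
theorem Col.shift (F : Frame c m v) {x y g x' y' g' : ℤ} (h : Col c v x y g)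
    (hx : (m : ℤ) ∣ x' - x) (hy : (m : ℤ) ∣ y' - y) (hg : (m : ℤ) ∣ g' - g) :
    Col c v x' y' g' := by
  unfold Col at *
  rw [per_dvd F hx, per_dvd F hy, per_dvd F hg,
    per_dvd F (show (m : ℤ) ∣ g' + 1 - (g + 1) by rwa [show g' + 1 - (g + 1) = g' - g by ring])]
  exact h

/-- shifting positions and labels by `0` or `± m` -/
theorem Col.shift1 (F : Frame c m v) {x y g x' y' g' : ℤ} (h : Col c v x y g)
    (hx : x' = x ∨ x' = x + m ∨ x' = x - m) (hy : y' = y ∨ y' = y + m ∨ y' = y - m)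
    (hg : g' = g ∨ g' = g + m ∨ g' = g - m) : Col c v x' y' g' := by
  have key : ∀ a b : ℤ, (a = b ∨ a = b + m ∨ a = b - m) → (m : ℤ) ∣ a - b := by
    rintro a b (h | h | h)
    · subst h; simp
    · exact ⟨1, by rw [h]; ring⟩
    · exact ⟨-1, by rw [h]; ring⟩
  exact h.shift F (key _ _ hx) (key _ _ hy) (key _ _ hg)

/-- a chord has at most one label up to multiples of `m` -/
theorem Col.uniq (F : Frame c m v) {x y g g' : ℤ} (h : Col c v x y g) (h' : Col c v x y g') :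
    (m : ℤ) ∣ g - g' := F.cinj _ _ (h.symm.symm ▸ (h.symm.symm.trans rfl).symm.trans h')

theorem Col.uniq_window (F : Frame c m v) {x y g g' B : ℤ} (h : Col c v x y g)
    (h' : Col c v x y g') (h1 : B ≤ g) (h2 : g < B + m) (h3 : B ≤ g') (h4 : g' < B + m) :
    g = g' := Frame.window F h1 h2 h3 h4 ((Eq.symm h).trans h')

/-- the arc from `x` to `y` where `{x, y} = {l, r}` with `l ≤ r` -/
theorem seg_arc {x y l r : ℤ} {k : ℕ} (h : x = l ∧ y = r ∨ x = r ∧ y = l) (hlr : l ≤ r)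
    (hk : (k : ℤ) = r - l + 1) : Seg c v (Set.Icc l r) (Set.Ico l r) x y k := by
  rcases h with ⟨rfl, rfl⟩ | ⟨rfl, rfl⟩
  · exact Seg.up (by omega) hlr
  · exact Seg.down (by omega) hlr

/-- A path from `x` to `y` with `k` vertices, with positions in `[A, A']` and with distinct labels
in `[E, E'] ∖ {z}`. -/
def Wk (c : Sym2 V → C) (v : ℤ → V) (A A' E E' z x y k : ℤ) : Prop :=
  0 ≤ k ∧ Seg c v (Set.Icc A A') (Set.Icc E E' \ {z}) x y k.toNat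

theorem Wk.mono {A A' E E' z x y k B B' D D' z' : ℤ} (h : Wk c v A A' E E' z x y k)
    (h1 : B ≤ A) (h2 : A' ≤ B') (h3 : D ≤ E) (h4 : E' ≤ D')
    (h5 : z' = z ∨ z' < E ∨ E' < z') : Wk c v B B' D D' z' x y k := by
  refine ⟨h.1, h.2.mono ?_ ?_⟩
  · intro p hp
    simp only [Set.mem_Icc] at hp ⊢
    omega
  · intro p hp
    simp only [Set.mem_sdiff, Set.mem_Icc, Set.mem_singleton_iff] at hp ⊢
    omega

/-- the path with a single vertex -/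
theorem Wk.single (x : ℤ) {E E' z : ℤ} : Wk c v x x E E' z x x 1 :=
  ⟨by norm_num, [x], [], LP.single x, by simp, by simp, rfl, by simp, by simp⟩

/-- an arc -/
theorem Wk.arc {x y l r z : ℤ} (h : x = l ∧ y = r ∨ x = r ∧ y = l) (hlr : l ≤ r)
    (hz : z < l ∨ r ≤ z) : Wk c v l r l (r - 1) z x y (r - l + 1) := by
  refine ⟨by omega, (seg_arc h hlr (k := (r - l + 1).toNat) (by omega)).mono
    (fun p hp => hp) ?_⟩
  intro p hp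
  simp only [Set.mem_sdiff, Set.mem_Icc, Set.mem_Ico, Set.mem_singleton_iff] at hp ⊢
  omega

/-- Extending a path by a chord with label `g` and a second path. -/
theorem Wk.join {A A' E E' z x y k B B' D D' w x' y' k' : ℤ}
    (h : Wk c v A A' E E' z x y k) (h' : Wk c v B B' D D' w x' y' k') (g : ℤ)
    (hg : Col c v y x' g) (P P' Q Q' u : ℤ)
    (d1 : A' < B ∨ B' < A) (d2 : E' < D ∨ D' < E ∨ E' < E ∨ D' < D)
    (g1 : g < E ∨ E' < g ∨ g = z) (g2 : g < D ∨ D' < g ∨ g = w)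
    (p1 : P ≤ A ∧ A' ≤ P' ∧ P ≤ B ∧ B' ≤ P')
    (q1 : (Q ≤ E ∧ E' ≤ Q' ∨ E' < E) ∧ (Q ≤ D ∧ D' ≤ Q' ∨ D' < D) ∧ Q ≤ g ∧ g ≤ Q')
    (hu : (u = z ∨ u < E ∨ E' < u) ∧ (u = w ∨ u < D ∨ D' < u) ∧ u ≠ g) :
    Wk c v P P' Q Q' u x y' (k + k') := by
  obtain ⟨h0, h⟩ := h
  obtain ⟨h0', h'⟩ := h'
  refine ⟨by omega, ?_⟩
  have := h.join h' (by
    rw [Set.disjoint_left]; intro p hp hp'
    simp only [Set.mem_Icc] at hp hp'
    omega) (by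
    rw [Set.disjoint_left]; intro p hp hp'
    simp only [Set.mem_sdiff, Set.mem_Icc, Set.mem_singleton_iff] at hp hp'
    omega) g (by
    simp only [Set.mem_sdiff, Set.mem_Icc, Set.mem_singleton_iff]
    omega) (by
    simp only [Set.mem_sdiff, Set.mem_Icc, Set.mem_singleton_iff]
    omega) hg
  rw [show (k + k').toNat = k.toNat + k'.toNat by omega]
  refine this.mono ?_ ?_
  · intro p hp
    simp only [Set.mem_union, Set.mem_Icc] at hp ⊢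
    omega
  · intro p hp
    simp only [Set.mem_sdiff, Set.mem_union, Set.mem_insert_iff, Set.mem_Icc,
      Set.mem_singleton_iff] at hp ⊢
    omega

theorem dIcc {a b c' d : ℤ} (h : b < c' ∨ d < a) : Disjoint (Set.Icc a b) (Set.Icc c' d) := by
  rw [Set.disjoint_left]; intro p hp hp'
  simp only [Set.mem_Icc] at hp hp'
  omega

theorem dIco {a b c' d : ℤ} (h : b < c' ∨ d < a) : Disjoint (Set.Ico a b) (Set.Ico c' d) := by
  rw [Set.disjoint_left]; intro p hp hp'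
  simp only [Set.mem_Ico] at hp hp'
  omega

theorem dE {E E' z l r : ℤ} (h : E' < l ∨ r ≤ E ∨ l = r) :
    Disjoint (Set.Icc E E' \ {z}) (Set.Ico l r) := by
  rw [Set.disjoint_left]; intro p hp hp'
  simp only [Set.mem_sdiff, Set.mem_Icc, Set.mem_Ico, Set.mem_singleton_iff] at hp hp'
  omega

theorem nE {E E' z g : ℤ} (h : g < E ∨ E' < g ∨ g = z) : g ∉ Set.Icc E E' \ {z} := by
  simp only [Set.mem_sdiff, Set.mem_Icc, Set.mem_singleton_iff]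
  omega

theorem nI {l r g : ℤ} (h : g < l ∨ r ≤ g) : g ∉ Set.Ico l r := by
  simp only [Set.mem_Ico]
  omega

theorem nU {S T : Set ℤ} {g : ℤ} (h : g ∉ S) (h' : g ∉ T) : g ∉ S ∪ T := by
  rintro (h1 | h1)
  · exact h h1
  · exact h' h1

theorem nIns {S : Set ℤ} {g g' : ℤ} (h : g ≠ g') (h' : g ∉ S) : g ∉ insert g' S := by
  rintro (h1 | h1)
  · exact h h1
  · exact h' h1

theorem dIns {S T : Set ℤ} {g : ℤ} (h : g ∉ T) (h' : Disjoint S T) : Disjoint (insert g S) T := by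
  rw [Set.disjoint_left] at h' ⊢
  rintro p (rfl | hp) hp'
  · exact h hp'
  · exact h' hp hp'

/-- A walk and one arc which cannot be closed up. -/
theorem duo (F : Frame c m v) {A A' E E' z x0 y0 k0 : ℤ} (P : Wk c v A A' E E' z x0 y0 k0)
    {L : ℕ} (hL : ¬ HasRainbowCycle c L) (hL3 : 3 ≤ L) (x1 y1 l1 r1 g1 B B' : ℤ)
    (c1 : Col c v y0 x1 g1)
    (a1 : (x1 = l1 ∧ y1 = r1 ∨ x1 = r1 ∧ y1 = l1) ∧ l1 ≤ r1)
    (count : k0 + (r1 - l1 + 1) = L)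
    (hp : (B ≤ A ∧ A' < B + m) ∧ (B ≤ l1 ∧ r1 < B + m))
    (hd : (A' < l1 ∨ r1 < A))
    (hq : (B' ≤ E ∧ E' < B' + m) ∧ (B' ≤ l1 ∧ r1 ≤ B' + m) ∧ (B' ≤ g1 ∧ g1 < B' + m))
    (he : (E' < l1 ∨ r1 ≤ E ∨ l1 = r1))
    (hg1 : (g1 < E ∨ E' < g1 ∨ g1 = z) ∧ (g1 < l1 ∨ r1 ≤ g1)) :
    ∃ q, Col c v y1 x0 q ∧ ((E ≤ q ∧ q ≤ E' ∧ q ≠ z) ∨ q = g1 ∨ (l1 ≤ q ∧ q < r1)) := by
  obtain ⟨h0, P⟩ := P
  have hk : k0.toNat + (r1 - l1 + 1).toNat = L := by clear hp hd hq he hg1; omega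
  have s1 : Seg c v (Set.Icc l1 r1) (Set.Ico l1 r1) x1 y1 (r1 - l1 + 1).toNat :=
    seg_arc a1.1 a1.2 (by clear hp hd hq he hg1; omega)
  have t1 := P.join s1 (dIcc hd) (dE he) g1 (nE hg1.1) (nI hg1.2) c1
  clear hd he hg1 a1 count P s1 c1
  obtain ⟨q, hq1, hq2⟩ := Seg.mem F hL t1 hk hL3 B B' (by
      rintro p (hp1 | hp1) <;> simp only [Set.mem_Icc] at hp1 <;> omega) (by
      rintro p (hp1 | hp1 | hp1)
      · omega
      · simp only [Set.mem_sdiff, Set.mem_Icc, Set.mem_singleton_iff] at hp1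
        omega
      · simp only [Set.mem_Ico] at hp1
        omega)
  refine ⟨q, hq2, ?_⟩
  rcases hq1 with h1 | h1 | h1
  · exact Or.inr (Or.inl h1)
  · simp only [Set.mem_sdiff, Set.mem_Icc, Set.mem_singleton_iff] at h1
    exact Or.inl ⟨h1.1.1, h1.1.2, h1.2⟩
  · exact Or.inr (Or.inr h1)

/-- A path made of a walk and two arcs which cannot be closed up: the label of the closing chord.
The arcs go from `x1` to `y1` (with `{x1, y1} = {l1, r1}`) and from `x2` to `y2`. -/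
theorem tri (F : Frame c m v) {A A' E E' z x0 y0 k0 : ℤ} (P : Wk c v A A' E E' z x0 y0 k0)
    {L : ℕ} (hL : ¬ HasRainbowCycle c L) (hL3 : 3 ≤ L) (x1 y1 l1 r1 g1 x2 y2 l2 r2 g2 B B' : ℤ)
    (c1 : Col c v y0 x1 g1) (c2 : Col c v y1 x2 g2)
    (a1 : (x1 = l1 ∧ y1 = r1 ∨ x1 = r1 ∧ y1 = l1) ∧ l1 ≤ r1)
    (a2 : (x2 = l2 ∧ y2 = r2 ∨ x2 = r2 ∧ y2 = l2) ∧ l2 ≤ r2)
    (count : k0 + (r1 - l1 + 1) + (r2 - l2 + 1) = L)
    (hp : (B ≤ A ∧ A' < B + m) ∧ (B ≤ l1 ∧ r1 < B + m) ∧ (B ≤ l2 ∧ r2 < B + m))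
    (hd : (A' < l1 ∨ r1 < A) ∧ (A' < l2 ∨ r2 < A) ∧ (r1 < l2 ∨ r2 < l1))
    (hq : (B' ≤ E ∧ E' < B' + m) ∧ (B' ≤ l1 ∧ r1 ≤ B' + m) ∧ (B' ≤ l2 ∧ r2 ≤ B' + m) ∧
      (B' ≤ g1 ∧ g1 < B' + m) ∧ (B' ≤ g2 ∧ g2 < B' + m))
    (he : (E' < l1 ∨ r1 ≤ E ∨ l1 = r1) ∧ (E' < l2 ∨ r2 ≤ E ∨ l2 = r2))
    (hg1 : (g1 < E ∨ E' < g1 ∨ g1 = z) ∧ (g1 < l1 ∨ r1 ≤ g1) ∧ (g1 < l2 ∨ r2 ≤ g1))
    (hg2 : (g2 < E ∨ E' < g2 ∨ g2 = z) ∧ (g2 < l1 ∨ r1 ≤ g2) ∧ (g2 < l2 ∨ r2 ≤ g2) ∧ g1 ≠ g2) :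
    ∃ q, Col c v y2 x0 q ∧ ((E ≤ q ∧ q ≤ E' ∧ q ≠ z) ∨ q = g1 ∨ (l1 ≤ q ∧ q < r1) ∨
      q = g2 ∨ (l2 ≤ q ∧ q < r2)) := by
  obtain ⟨h0, P⟩ := P
  have hk : k0.toNat + (r1 - l1 + 1).toNat + (r2 - l2 + 1).toNat = L := by
    clear hp hd hq he hg1 hg2; omega
  have s1 : Seg c v (Set.Icc l1 r1) (Set.Ico l1 r1) x1 y1 (r1 - l1 + 1).toNat :=
    seg_arc a1.1 a1.2 (by clear hp hd hq he hg1 hg2; omega)
  have s2 : Seg c v (Set.Icc l2 r2) (Set.Ico l2 r2) x2 y2 (r2 - l2 + 1).toNat :=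
    seg_arc a2.1 a2.2 (by clear hp hd hq he hg1 hg2; omega)
  have t1 := P.join s1 (dIcc hd.1) (dE he.1) g1 (nE hg1.1) (nI hg1.2.1) c1
  have t2 := t1.join s2 (Set.disjoint_union_left.mpr ⟨dIcc hd.2.1, dIcc hd.2.2⟩)
    (dIns (nI hg1.2.2) (Set.disjoint_union_left.mpr ⟨dE he.2, dIco hd.2.2⟩)) g2
    (nIns (Ne.symm hg2.2.2.2) (nU (nE hg2.1) (nI hg2.2.1))) (nI hg2.2.2.1) c2
  clear hd he hg1 hg2 a1 a2 count P s1 s2 t1 c1 c2
  obtain ⟨q, hq1, hq2⟩ := Seg.mem F hL t2 hk hL3 B B' (by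
      rintro p ((hp1 | hp1) | hp1) <;> simp only [Set.mem_Icc] at hp1 <;> omega) (by
      rintro p (hp1 | (hp1 | hp1 | hp1) | hp1)
      · omega
      · omega
      · simp only [Set.mem_sdiff, Set.mem_Icc, Set.mem_singleton_iff] at hp1
        omega
      · simp only [Set.mem_Ico] at hp1
        omega
      · simp only [Set.mem_Ico] at hp1
        omega)
  refine ⟨q, hq2, ?_⟩
  rcases hq1 with h1 | (h1 | h1 | h1) | h1
  · exact Or.inr (Or.inr (Or.inr (Or.inl h1)))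
  · exact Or.inr (Or.inl h1)
  · simp only [Set.mem_sdiff, Set.mem_Icc, Set.mem_singleton_iff] at h1
    exact Or.inl ⟨h1.1.1, h1.1.2, h1.2⟩
  · exact Or.inr (Or.inr (Or.inl h1))
  · exact Or.inr (Or.inr (Or.inr (Or.inr h1)))

/-- A path made of a walk and three arcs which cannot be closed up: the label of the closing
chord. -/
theorem quad (F : Frame c m v) {A A' E E' z x0 y0 k0 : ℤ} (P : Wk c v A A' E E' z x0 y0 k0)
    {L : ℕ} (hL : ¬ HasRainbowCycle c L) (hL3 : 3 ≤ L)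
    (x1 y1 l1 r1 g1 x2 y2 l2 r2 g2 x3 y3 l3 r3 g3 B B' : ℤ)
    (c1 : Col c v y0 x1 g1) (c2 : Col c v y1 x2 g2) (c3 : Col c v y2 x3 g3)
    (a1 : (x1 = l1 ∧ y1 = r1 ∨ x1 = r1 ∧ y1 = l1) ∧ l1 ≤ r1)
    (a2 : (x2 = l2 ∧ y2 = r2 ∨ x2 = r2 ∧ y2 = l2) ∧ l2 ≤ r2)
    (a3 : (x3 = l3 ∧ y3 = r3 ∨ x3 = r3 ∧ y3 = l3) ∧ l3 ≤ r3)
    (count : k0 + (r1 - l1 + 1) + (r2 - l2 + 1) + (r3 - l3 + 1) = L)
    (hp : (B ≤ A ∧ A' < B + m) ∧ (B ≤ l1 ∧ r1 < B + m) ∧ (B ≤ l2 ∧ r2 < B + m) ∧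
      (B ≤ l3 ∧ r3 < B + m))
    (hd : (A' < l1 ∨ r1 < A) ∧ (A' < l2 ∨ r2 < A) ∧ (A' < l3 ∨ r3 < A) ∧ (r1 < l2 ∨ r2 < l1) ∧
      (r1 < l3 ∨ r3 < l1) ∧ (r2 < l3 ∨ r3 < l2))
    (hq : (B' ≤ E ∧ E' < B' + m) ∧ (B' ≤ l1 ∧ r1 ≤ B' + m) ∧ (B' ≤ l2 ∧ r2 ≤ B' + m) ∧
      (B' ≤ l3 ∧ r3 ≤ B' + m) ∧ (B' ≤ g1 ∧ g1 < B' + m) ∧ (B' ≤ g2 ∧ g2 < B' + m) ∧
      (B' ≤ g3 ∧ g3 < B' + m))
    (he : (E' < l1 ∨ r1 ≤ E ∨ l1 = r1) ∧ (E' < l2 ∨ r2 ≤ E ∨ l2 = r2) ∧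
      (E' < l3 ∨ r3 ≤ E ∨ l3 = r3))
    (hg1 : (g1 < E ∨ E' < g1 ∨ g1 = z) ∧ (g1 < l1 ∨ r1 ≤ g1) ∧ (g1 < l2 ∨ r2 ≤ g1) ∧
      (g1 < l3 ∨ r3 ≤ g1))
    (hg2 : (g2 < E ∨ E' < g2 ∨ g2 = z) ∧ (g2 < l1 ∨ r1 ≤ g2) ∧ (g2 < l2 ∨ r2 ≤ g2) ∧
      (g2 < l3 ∨ r3 ≤ g2) ∧ g1 ≠ g2)
    (hg3 : (g3 < E ∨ E' < g3 ∨ g3 = z) ∧ (g3 < l1 ∨ r1 ≤ g3) ∧ (g3 < l2 ∨ r2 ≤ g3) ∧
      (g3 < l3 ∨ r3 ≤ g3) ∧ g1 ≠ g3 ∧ g2 ≠ g3) :
    ∃ q, Col c v y3 x0 q ∧ ((E ≤ q ∧ q ≤ E' ∧ q ≠ z) ∨ q = g1 ∨ (l1 ≤ q ∧ q < r1) ∨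
      q = g2 ∨ (l2 ≤ q ∧ q < r2) ∨ q = g3 ∨ (l3 ≤ q ∧ q < r3)) := by
  obtain ⟨h0, P⟩ := P
  have hk : k0.toNat + (r1 - l1 + 1).toNat + (r2 - l2 + 1).toNat + (r3 - l3 + 1).toNat = L := by
    clear hp hd hq he hg1 hg2 hg3; omega
  have s1 : Seg c v (Set.Icc l1 r1) (Set.Ico l1 r1) x1 y1 (r1 - l1 + 1).toNat :=
    seg_arc a1.1 a1.2 (by clear hp hd hq he hg1 hg2 hg3; omega)
  have s2 : Seg c v (Set.Icc l2 r2) (Set.Ico l2 r2) x2 y2 (r2 - l2 + 1).toNat :=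
    seg_arc a2.1 a2.2 (by clear hp hd hq he hg1 hg2 hg3; omega)
  have s3 : Seg c v (Set.Icc l3 r3) (Set.Ico l3 r3) x3 y3 (r3 - l3 + 1).toNat :=
    seg_arc a3.1 a3.2 (by clear hp hd hq he hg1 hg2 hg3; omega)
  obtain ⟨d1, d2, d3, d4, d5, d6⟩ := hd
  obtain ⟨e1, e2, e3⟩ := he
  obtain ⟨g11, g12, g13, g14⟩ := hg1
  obtain ⟨g21, g22, g23, g24, g25⟩ := hg2
  obtain ⟨g31, g32, g33, g34, g35, g36⟩ := hg3
  have t1 := P.join s1 (dIcc d1) (dE e1) g1 (nE g11) (nI g12) c1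
  have t2 := t1.join s2 (Set.disjoint_union_left.mpr ⟨dIcc d2, dIcc d4⟩)
    (dIns (nI g13) (Set.disjoint_union_left.mpr ⟨dE e2, dIco d4⟩)) g2
    (nIns (Ne.symm g25) (nU (nE g21) (nI g22))) (nI g23) c2
  have t3 := t2.join s3 (Set.disjoint_union_left.mpr ⟨Set.disjoint_union_left.mpr
      ⟨dIcc d3, dIcc d5⟩, dIcc d6⟩)
    (dIns (nI g24) (Set.disjoint_union_left.mpr ⟨dIns (nI g14)
      (Set.disjoint_union_left.mpr ⟨dE e3, dIco d5⟩), dIco d6⟩)) g3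
    (nIns (Ne.symm g36) (nU (nIns (Ne.symm g35) (nU (nE g31) (nI g32))) (nI g33))) (nI g34) c3
  clear d1 d2 d3 d4 d5 d6 e1 e2 e3 g11 g12 g13 g14 g21 g22 g23 g24 g25 g31 g32 g33 g34 g35 g36
    a1 a2 a3 count P s1 s2 s3 t1 t2 c1 c2 c3
  obtain ⟨q, hq1, hq2⟩ := Seg.mem F hL t3 hk hL3 B B' (by
      rintro p (((hp1 | hp1) | hp1) | hp1) <;> simp only [Set.mem_Icc] at hp1 <;> omega) (by
      rintro p (hp1 | (hp1 | (hp1 | hp1 | hp1) | hp1) | hp1)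
      · omega
      · omega
      · omega
      · simp only [Set.mem_sdiff, Set.mem_Icc, Set.mem_singleton_iff] at hp1
        omega
      · simp only [Set.mem_Ico] at hp1
        omega
      · simp only [Set.mem_Ico] at hp1
        omega
      · simp only [Set.mem_Ico] at hp1
        omega)
  refine ⟨q, hq2, ?_⟩
  rcases hq1 with h1 | (h1 | (h1 | h1 | h1) | h1) | h1
  · exact Or.inr (Or.inr (Or.inr (Or.inr (Or.inr (Or.inl h1)))))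
  · exact Or.inr (Or.inr (Or.inr (Or.inl h1)))
  · exact Or.inr (Or.inl h1)
  · simp only [Set.mem_sdiff, Set.mem_Icc, Set.mem_singleton_iff] at h1
    exact Or.inl ⟨h1.1.1, h1.1.2, h1.2⟩
  · exact Or.inr (Or.inr (Or.inl h1))
  · exact Or.inr (Or.inr (Or.inr (Or.inr (Or.inl h1))))
  · exact Or.inr (Or.inr (Or.inr (Or.inr (Or.inr (Or.inr h1)))))

/-- A single walk which cannot be closed up. -/
theorem uno (F : Frame c m v) {A A' E E' z x0 y0 k0 : ℤ} (P : Wk c v A A' E E' z x0 y0 k0)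
    {L : ℕ} (hL : ¬ HasRainbowCycle c L) (hL3 : 3 ≤ L) (count : k0 = L)
    (hp : A' < A + m) (hq : E' < E + m) :
    ∃ q, Col c v y0 x0 q ∧ (E ≤ q ∧ q ≤ E' ∧ q ≠ z) := by
  obtain ⟨h0, P⟩ := P
  obtain ⟨q, hq1, hq2⟩ := Seg.mem F hL P (by omega) hL3 A E
    (fun p hp => by simp only [Set.mem_Icc] at hp; omega)
    (fun p hp => by
      simp only [Set.mem_sdiff, Set.mem_Icc, Set.mem_singleton_iff] at hp
      omega)
  refine ⟨q, hq2, ?_⟩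
  simp only [Set.mem_sdiff, Set.mem_Icc, Set.mem_singleton_iff] at hq1
  omega

end Pool.Agent.helper94.RB
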