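import Mathlib
import Pool.Agent.helper94.RB.Near

set_option autoImplicit false

/-! # Module H: two blocks with a small gap; the U-kill -/

namespace Pool.Agent.helper94.RB

open Pool.Agent.helper94.Rainbow Pool.Agent.helper94.RainbowTwice

variable {V C : Type} {c : Sym2 V → C} {n t m : ℕ} {v : ℤ → V} {β : ℤ → ℤ} {s x : ℤ}

/-- two blocks `[p1, q1]`, `[p2, q2]` with `q1 < p2 ≤ q1 + t - 1` have extent `≤ n - 2` -/
theorem d2 (N : Near c n t m v β) (ht : Even t) (hb : ∀ x, 2 * (β x - x) + 4 + t ≤ 2 * n)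
    {p1 q1 p2 q2 : ℤ} (b1 : β p1 = q1) (b1' : β (p1 - 1) = p1 - 1) (b2 : β p2 = q2)
    (h1 : q1 < p2) (h2 : p2 ≤ q1 + t - 1) : q2 ≤ p1 + n - 3 := by
  by_contra hcon
  push Not at hcon
  have hm := N.hm
  have ht3 := N.ht
  have htn := N.htn
  have c1 := N.le p1
  have c2 := N.le p2
  have s1 := hb p1
  have s2 := hb p2
  obtain ⟨u, hu⟩ := ht
  rcases le_or_gt p2 (p1 + n - 2) with hc | hc
  · -- form 1
    obtain ⟨q, hq⟩ : ∃ q, q = max p2 (p1 + t - 1) := ⟨_, rfl⟩
    have hbq : β q = q2 := by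
      rw [← b2]; exact N.blk p2 q (by omega) (by omega)
    have W := Wk.arc (c := c) (v := v) (x := p1 - 1) (y := p1 - t + 1) (l := p1 - t + 1)
      (r := p1 - 1) (z := p1 - 1) (Or.inr ⟨rfl, rfl⟩) (by omega) (by omega)
    have cH1 := N.colH p1
    have cH2 := N.colH q
    rw [b1] at cH1
    rw [hbq] at cH2
    obtain ⟨g, hg, hg'⟩ := tri N.F W N.no (by omega) p1 (q - t + 1) p1 (q - t + 1) q1
      q (p1 + n - 2) q (p1 + n - 2) q2 (p1 - t + 1) (p1 - t + 1) cH1 cH2
      (by omega) (by omega) (by omega) (by omega) (by omega) (by omega) (by omega) (by omega)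
      (by omega)
    have cC := (N.colC (p1 - 1)).symm
    rw [b1', show p1 - 1 + (n : ℤ) - 1 = p1 + n - 2 by ring] at cC
    have := Col.uniq_window N.F (B := p1 - t + 1) hg cC (by omega) (by omega) (by omega)
      (by omega)
    omega
  · -- form 2
    obtain ⟨k, hk⟩ : ∃ k, k = p2 - (p1 + n - 2) := ⟨_, rfl⟩
    have hbb : β (p1 + k) = q1 := by
      rw [← b1]; exact N.blk p1 (p1 + k) (by omega) (by omega)
    have W := Wk.arc (c := c) (v := v) (x := p1 - 1) (y := p1 - 1 - (t - 2 - k))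
      (l := p1 - 1 - (t - 2 - k)) (r := p1 - 1) (z := p1 - 1) (Or.inr ⟨rfl, rfl⟩) (by omega)
      (by omega)
    have cH1 := N.colH (p1 + k)
    have cH2 := N.colH p2
    rw [hbb, show p1 + k - (t : ℤ) + 1 = p1 - 1 - (t - 2 - k) by ring] at cH1
    rw [b2] at cH2
    obtain ⟨g, hg, hg'⟩ := tri N.F W N.no (by omega) (p1 + k) (p2 - t + 1) (p1 + k) (p2 - t + 1) q1
      p2 (p1 + n - 2) (p1 + n - 2) p2 q2 (p1 - t + 1) (p1 - t + 1) cH1 cH2
      (by omega) (by omega) (by omega) (by omega) (by omega) (by omega) (by omega) (by omega)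
      (by omega)
    have cC := (N.colC (p1 - 1)).symm
    rw [b1', show p1 - 1 + (n : ℤ) - 1 = p1 + n - 2 by ring] at cC
    have := Col.uniq_window N.F (B := p1 - t + 1) hg cC (by omega) (by omega) (by omega)
      (by omega)
    omega

/-- The U-kill: a block `[-S + 1, 0]` and a block `[d1, d2]`. -/
theorem ukill0 (N : Near c n t m v β) (u : ℕ) (hu : t = 2 * u)
    (hb : ∀ x, 2 * (β x - x) + 4 + t ≤ 2 * n) {S d1 d2 p : ℤ}
    (e0 : β 0 = 0) (hB : β (-S + 1) = 0) (hd : β d1 = d2) (hd1 : β (d1 - 1) = d1 - 1)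
    (h1 : d1 - u ≤ p) (h2 : n - 1 - S ≤ p) (h3 : p ≤ d1 - 1) (h4 : 2 * p + 1 ≤ d2)
    (h5 : u - 1 ≤ p) (h6 : 1 ≤ p) (h7 : p ≤ n - 2) : False := by
  have hm := N.hm
  have ht3 := N.ht
  have htn := N.htn
  have s1 := hb d1
  rw [hd] at s1
  -- U1
  have ha : β (-(n - 2 - p)) = 0 := by
    have := N.blk (-S + 1) (-(n - 2 - p)) (by omega) (by omega)
    rw [this, hB]
  have W1 := Wk.arc (c := c) (v := v) (x := 0) (y := -(n - 2 - p)) (l := -(n - 2 - p)) (r := 0)
    (z := 0) (Or.inr ⟨rfl, rfl⟩) (by omega) (by omega)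
  have cC1 := N.colC (-(n - 2 - p))
  rw [ha, show -((n : ℤ) - 2 - p) + n - 1 = p + 1 by ring] at cC1
  obtain ⟨g1, hg1, hg1'⟩ := duo N.F W1 N.no (by omega) (p + 1) (2 * p + 1) (p + 1) (2 * p + 1) 0
    (-(n - 2 - p)) (-(n - 2 - p)) cC1 (by omega) (by omega) (by omega) (by omega) (by omega)
    (by omega) (by omega)
  -- U2
  have hbp : β p ≤ d1 - 1 := by
    have := N.mono h3
    rw [hd1] at this
    exact this
  have hpp := N.le p
  have W2 := Wk.arc (c := c) (v := v) (x := 0) (y := p) (l := 0) (r := p)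
    (z := p) (Or.inl ⟨rfl, rfl⟩) (by omega) (by omega)
  obtain ⟨g2, hg2, hg2'⟩ := duo N.F W2 N.no (by omega) (p + n - 1) (2 * p + 1) (2 * p + 1)
    (p + n - 1) (β p) 0 0 (N.colC p) (by omega) (by omega) (by omega) (by omega) (by omega)
    (by omega) (by omega)
  -- U3
  have hbu : β (p + u) = d2 := by
    rw [← hd]; exact N.blk d1 (p + u) (by omega) (by omega)
  have W3 := Wk.arc (c := c) (v := v) (x := m) (y := p + u + n - 1) (l := p + u + n - 1) (r := m)
    (z := m) (Or.inr ⟨rfl, rfl⟩) (by omega) (by omega)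
  have cC3 := (N.colC (p + u)).symm
  rw [hbu] at cC3
  obtain ⟨g3, hg3, hg3'⟩ := duo N.F W3 N.no (by omega) (p + u) (2 * p + 1) (p + u) (2 * p + 1) d2
    1 1 cC3 (by omega) (by omega) (by omega) (by omega) (by omega)
    (by omega) (by omega)
  have hg3'' := hg3.shift1 N.F (x' := 2 * p + 1) (y' := 0) (g' := g3) (by omega) (by omega)
    (by omega)
  -- compare
  have e12 : g1 = g2 ∨ g1 = g2 - m := by
    rcases le_or_gt 0 g1 with h | h
    · exact Or.inl (Col.uniq_window N.F (B := 0) hg1 hg2 (by omega) (by omega) (by omega)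
        (by omega))
    · right
      have := Col.uniq_window N.F (B := 0) (hg1.shift1 N.F (x' := 2 * p + 1) (y' := 0)
        (g' := g1 + m) (by omega) (by omega) (by omega)) hg2 (by omega) (by omega) (by omega)
        (by omega)
      omega
  have e23 : g2 = g3 := Col.uniq_window N.F (B := 0) hg2 hg3'' (by omega) (by omega) (by omega)
    (by omega)
  omega

end Pool.Agent.helper94.RB
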