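import Mathlib
import Pool.Agent.helper94.RB.Near

set_option autoImplicit false

/-! # Module F: reaching by down-walks when there is a block of size `≥ t - 1` -/

namespace Pool.Agent.helper94.RB

open Pool.Agent.helper94.Rainbow Pool.Agent.helper94.RainbowTwice

variable {V C : Type} {c : Sym2 V → C} {n t m : ℕ} {v : ℤ → V} {β : ℤ → ℤ} {s x : ℤ}

/-- the down-walk inside the block of `0` -/
theorem dw_block (N : Near c n t m v β) {a : ℤ} (ha : a ≤ 0) (hB : β a = 0) :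
    Wk c v a 0 a 0 (β a) 0 a (-a + 1) := by
  have _ := N.ht
  have h := Wk.arc (c := c) (v := v) (x := 0) (y := a) (l := a) (r := 0) (z := β a)
    (Or.inr ⟨rfl, rfl⟩) ha (Or.inr hB.ge)
  have h' := h.mono (B := a) (B' := 0) (D := a) (D' := 0) (z' := β a) le_rfl le_rfl le_rfl
    (by omega) (Or.inl rfl)
  rw [show -a + 1 = 0 - a + 1 by ring]
  exact h'

/-- the interval `[a0, A0]` is reached by down-walks with `j` jumps -/
structure HInv (c : Sym2 V → C) (t : ℕ) (v : ℤ → V) (β : ℤ → ℤ) (S : ℤ) (j : ℕ) (a0 A0 : ℤ) :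
    Prop where
  h0 : A0 ≤ 0
  st : β (a0 - 1) = a0 - 1
  wk : ∀ a, a0 ≤ a → a ≤ A0 → Wk c v a 0 a 0 (β a) 0 a (-a - (j : ℤ) * (t - 2) + 1)
  sz : (t : ℤ) - 1 ≤ A0 - a0 + 1
  lo : a0 ≤ -S + 1 - (j : ℤ) * (t - 1)

theorem HInv.step (N : Near c n t m v β) (e0 : β 0 = 0) {S : ℤ} {σ : ℤ → ℤ}
    (s1 : ∀ x, σ x ≤ x) (s2 : ∀ x, β (σ x) = β x) (s3 : ∀ x, β (σ x - 1) = σ x - 1)
    {j : ℕ} {a0 A0 : ℤ} (H : HInv c t v β S j a0 A0) :
    HInv c t v β S (j + 1) (σ (a0 - t + 1)) (min (A0 - t + 1) (σ A0 - 1)) ∧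
      a0 - 1 ≤ min (A0 - t + 1) (σ A0 - 1) := by
  have ht := N.ht
  have hA := H.h0
  have hsz := H.sz
  have hlo := H.lo
  have hst := H.st
  have hσ : a0 ≤ σ A0 := by
    by_contra hcon
    have h1 := N.blk (σ A0) (a0 - 1) (by omega) (by rw [s2]; have := N.le A0; omega)
    rw [s2] at h1
    have := N.le A0
    omega
  have hc : a0 - 1 ≤ min (A0 - t + 1) (σ A0 - 1) := by
    rw [le_min_iff]
    omega
  have hσ1 := s1 (a0 - t + 1)
  refine ⟨⟨?_, s3 _, ?_, ?_, ?_⟩, hc⟩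
  · have := min_le_left (A0 - t + 1) (σ A0 - 1)
    omega
  · intro a ha1 ha2
    rw [le_min_iff] at ha2
    obtain ⟨ha3, ha4⟩ := ha2
    have hβa : β a ≤ σ A0 - 1 := by
      have := N.mono ha4
      rwa [s3] at this
    have hσA := s1 A0
    have hlea := N.le a
    obtain ⟨y, hy1, hy2, hy3, hy4, hy5, hy6⟩ : ∃ y : ℤ, a + t - 1 ≤ y ∧ a0 ≤ y ∧ β a + 1 ≤ y ∧
        y ≤ A0 ∧ y - t + 1 ≤ β a ∧ a ≤ y - t + 1 := by
      refine ⟨max (a + t - 1) (max a0 (β a + 1)), le_max_left _ _,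
        (le_max_left _ _).trans (le_max_right _ _), (le_max_right _ _).trans (le_max_right _ _),
        ?_, ?_, ?_⟩
      · refine max_le (by omega) (max_le (by omega) (by omega))
      · have h1 := N.mono ha1
        rw [s2] at h1
        have h2 := N.le (a0 - t + 1)
        have : max (a + t - 1) (max a0 (β a + 1)) ≤ β a + t - 1 := by
          refine max_le (by omega) (max_le (by omega) (by omega))
        omega
      · have := le_max_left (a + t - 1) (max a0 (β a + 1))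
        omega
    have W := H.wk y hy2 hy4
    have hblk : β (y - t + 1) = β a := N.blk a (y - t + 1) hy6 hy5
    have hyy := N.le y
    have hβy : β y ≤ 0 := by
      have := N.mono (show y ≤ 0 by omega)
      rwa [e0] at this
    have W2 := Wk.arc (c := c) (v := v) (x := y - t + 1) (y := a) (l := a) (r := y - t + 1)
      (z := β a) (Or.inr ⟨rfl, rfl⟩) hy6 (Or.inr hy5)
    have W3 := W.join W2 (β y) (N.colH y).symm a 0 a 0 (β a) (by omega) (by omega) (by omega)
      (by omega) (by omega) (by omega) (by omega)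
    have e : -a - ((j + 1 : ℕ) : ℤ) * (t - 2) + 1 =
        -y - (j : ℤ) * (t - 2) + 1 + (y - t + 1 - a + 1) := by
      push_cast
      ring
    rw [e]
    exact W3
  · omega
  · have e : ((j + 1 : ℕ) : ℤ) * (t - 1) = (j : ℤ) * (t - 1) + (t - 1) := by
      push_cast
      ring
    rw [e]
    omega

/-- For every even `ψ ≥ 0` there are `a ≤ 0` and `j ≥ 0` with `-2a - j (t - 2) = ψ` and a
down-walk from `0` to `a` with `j` jumps (so `-a - j (t - 2) + 1 = ψ + a + 1` vertices). Either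
`j = 0` and `a` is in the block of `0`, or `j ≥ 1` and `2 S + (j - 1) t ≤ ψ`. -/
theorem hit (N : Near c n t m v β) (ht : Even t) (e0 : β 0 = 0) {S : ℤ}
    (hS : ∀ x, β x ≤ x + S - 1) (hB : β (-S + 1) = 0) (hSt : t - 1 ≤ S) (ψ : ℤ) (h0 : 0 ≤ ψ)
    (he : Even ψ) :
    ∃ a j : ℤ, a ≤ 0 ∧ 0 ≤ j ∧ ψ = -2 * a - j * (t - 2) ∧
      ((j = 0 ∧ -S < a) ∨ (1 ≤ j ∧ 2 * S + (j - 1) * t ≤ ψ)) ∧
      Wk c v a 0 a 0 (β a) 0 a (ψ + a + 1) := by
  have ht3 := N.ht
  obtain ⟨u, hu⟩ := ht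
  obtain ⟨φ, hφ⟩ := he
  have hS' : ∀ x, β x ≤ x + S := fun x => by have := hS x; omega
  choose σ s1 s2 s3 _ using N.exists_start hS'
  -- the first interval
  have hstart : β (-S + 1 - 1) = -S + 1 - 1 := by
    have h1 := hS (-S + 1 - 1)
    have h2 := N.le (-S + 1 - 1)
    rcases N.lt_or (show -S + 1 - 1 ≤ -S + 1 by omega) with h3 | h3
    · omega
    · rw [hB] at h3
      omega
  have hI0 : HInv c t v β S 0 (-S + 1) 0 := by
    refine ⟨le_rfl, hstart, ?_, by omega, by simp⟩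
    intro a ha1 ha2
    have hβ : β a = 0 := by
      have h1 := N.blk (-S + 1) a ha1 (by rw [hB]; exact ha2)
      rw [h1, hB]
    have := dw_block N ha2 hβ
    simpa using this
  -- the alternative
  have key : ∀ j : ℕ, (∃ a i : ℤ, a ≤ 0 ∧ 0 ≤ i ∧ ψ = -2 * a - i * (t - 2) ∧
      ((i = 0 ∧ -S < a) ∨ (1 ≤ i ∧ 2 * S + (i - 1) * t ≤ ψ)) ∧
      Wk c v a 0 a 0 (β a) 0 a (ψ + a + 1)) ∨
      ∃ a0 A0, HInv c t v β S j a0 A0 ∧ -φ - (j : ℤ) * (u - 1) < a0 := by
    intro j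
    induction j with
    | zero =>
      by_cases h : -φ - ((0 : ℕ) : ℤ) * (u - 1) < -S + 1
      · exact Or.inr ⟨_, _, hI0, h⟩
      · left
        have h' : -S + 1 ≤ -φ := by simpa using h
        have W := hI0.wk (-φ) h' (by omega)
        refine ⟨-φ, 0, by omega, le_rfl, by omega, Or.inl ⟨rfl, by omega⟩, ?_⟩
        rw [show ψ + -φ + 1 = - -φ - ((0 : ℕ) : ℤ) * (t - 2) + 1 by simp; omega]
        exact W
    | succ j ih =>
      rcases ih with h | ⟨a0, A0, H, hlt⟩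
      · exact Or.inl h
      · obtain ⟨H', hc⟩ := H.step N e0 s1 s2 s3
        have e1 : -φ - ((j + 1 : ℕ) : ℤ) * (u - 1) = -φ - (j : ℤ) * (u - 1) - (u - 1) := by
          push_cast; ring
        by_cases h : -φ - ((j + 1 : ℕ) : ℤ) * (u - 1) < σ (a0 - t + 1)
        · exact Or.inr ⟨_, _, H', h⟩
        · left
          rw [not_lt] at h
          have W := H'.wk _ h (by omega)
          have hlo := H.lo
          have e2 : ((j + 1 : ℕ) : ℤ) * (t - 2) = 2 * (((j + 1 : ℕ) : ℤ) * (u - 1)) := by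
            rw [hu]; push_cast; ring
          have e3 : (j : ℤ) * (t - 1) = 2 * ((j : ℤ) * (u - 1)) + j := by
            rw [hu]; push_cast; ring
          refine ⟨-φ - ((j + 1 : ℕ) : ℤ) * (u - 1), ((j + 1 : ℕ) : ℤ), ?_, Int.natCast_nonneg _,
            ?_, Or.inr ⟨by push_cast; omega, ?_⟩, ?_⟩
          · have := H'.h0
            omega
          · rw [e2, hφ]; ring
          · have e4 : (((j + 1 : ℕ) : ℤ) - 1) * t = 2 * ((j : ℤ) * (u - 1)) + 2 * j := by
              rw [hu]; push_cast; ring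
            rw [e4]
            rw [e3] at hlo
            omega
          · have e5 : ψ + (-φ - ((j + 1 : ℕ) : ℤ) * (u - 1)) + 1 =
                -(-φ - ((j + 1 : ℕ) : ℤ) * (u - 1)) - ((j + 1 : ℕ) : ℤ) * (t - 2) + 1 := by
              rw [e2, hφ]; ring
            rw [e5]
            exact W
  rcases key (ψ.toNat + 1) with h | ⟨a0, A0, H, hlt⟩
  · exact h
  · exfalso
    have hlo := H.lo
    have hj : ((ψ.toNat + 1 : ℕ) : ℤ) = ψ + 1 := by
      push_cast
      rw [Int.toNat_of_nonneg h0]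
    rw [hj] at hlt hlo
    have e3 : (ψ + 1) * ((t : ℤ) - 1) = 2 * ((ψ + 1) * ((u : ℤ) - 1)) + (ψ + 1) := by
      rw [hu]; push_cast; ring
    have h5 : 0 ≤ (ψ + 1) * ((u : ℤ) - 1) := mul_nonneg (by omega) (by omega)
    omega

end Pool.Agent.helper94.RB
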