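import Mathlib
import Pool.Agent.helper94.RB.Near
import Pool.Agent.helper94.RB.Hit
import Pool.Agent.helper94.RB.DTwo

set_option autoImplicit false

/-! # Module I: `t` even, a block of size `≥ (n - 1 + t) / 2` -/

namespace Pool.Agent.helper94.RB

open Pool.Agent.helper94.Rainbow Pool.Agent.helper94.RainbowTwice

variable {V C : Type} {c : Sym2 V → C} {n t m : ℕ} {v : ℤ → V} {β : ℤ → ℤ} {s x : ℤ}

/-- A block `B = [-S + 1, 0]` with `S ≥ h + u` (`n = 2h + 1`, `t = 2u`): if the chord `(0, 2)` has
a label then the block `[d1, d2]` of `h` has size `≥ h` and `d2 ≥ 3h - 1 + u - S`. -/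
theorem big_L2 (K : Kill c n t m v β 2 x) (h u : ℕ) (hn : n = 2 * h + 1) (hu : t = 2 * u)
    (hb : ∀ x, 2 * (β x - x) + 4 + t ≤ 2 * n) {S d1 : ℤ} (hB : β (-S + 1) = 0)
    (hB' : β (-S) = -S) (hS : h + u ≤ S) (hd : β d1 = β h) (hd' : β (d1 - 1) = d1 - 1)
    (hdh : d1 ≤ h) : h ≤ β h - d1 + 1 ∧ 3 * h - 1 + u - S ≤ β h := by
  by_contra hF
  have hm := K.hm
  have ht3 := K.ht
  have htn := K.htn
  have e0 := K.e0
  have hx0 := K.x0
  have hxm := K.xm
  have hS2 : S ≤ 2 * h - u := by
    have := hb (-S + 1)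
    omega
  have hlong := K.long (by norm_num) (by omega)
  have hbh := K.le h
  have hbd := K.le d1
  -- blocks before `-S` and in `B`
  have hlow : ∀ b, b ≤ -S → β b ≤ -S := by
    intro b hb1
    have := K.mono hb1
    omega
  have hin : ∀ a, -S + 1 ≤ a → a ≤ 0 → β a = 0 := by
    intro a h1 h2
    have := K.blk (-S + 1) a h1 (by omega)
    rw [this, hB]
  have hd1 : 1 ≤ d1 := by
    by_contra hcon
    have h1 : β d1 ≤ β 0 := K.mono (by omega)
    omega
  have hbh2 : β h ≤ 2 * h - 1 := by omega
  -- the walk inside `B`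
  have hW : ∀ f : ℤ, 0 ≤ f → f ≤ S - 1 → Wk c v (-f) 0 (-f) 0 (β (-f)) 0 (-f) (f + 1) := by
    intro f h1 h2
    have := dw_block K.toNear (a := -f) (by omega) (hin _ (by omega) (by omega))
    simpa using this
  -- alpha with `a = 0`, `d = h`
  have A0 := K.alpha (a := 0) (k := 1) (d := h) (by simpa using hW 0 le_rfl (by omega)) le_rfl
    (by omega) (by omega) (by omega) (by omega)
  have hD2 : ∀ p, 1 ≤ p → p ≤ 2 → β (p - 1) = p - 1 → β p ≤ 2 * h - 1 - S := by
    intro p hp1 hp2 hp3
    have := d2 K.toNear ⟨u, by omega⟩ hb (p1 := -S + 1) (q1 := 0) (p2 := p) (q2 := β p) hB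
      (by rw [show -S + 1 - 1 = -S by ring]; exact hB') rfl (by omega) (by omega)
    omega
  rcases le_or_gt x (2 * h - 1) with hx1 | hx1
  · rcases le_or_gt x (2 * h - 1 - (S - h + 1 - u)) with hx2 | hx2
    · -- beta
      obtain ⟨f, hf⟩ : ∃ f : ℤ, f = max (S - h + 1 - u) (h + 1 - u - x) := ⟨_, rfl⟩
      have hbb : β (-f - (h - 1 + u)) ≤ -S := hlow _ (by omega)
      have hbb' := K.le (-f - (h - 1 + u))
      have := K.beta (a := -f) (k := f + 1) (y := h + 1 - u - f) (b := -f - (h - 1 + u))
        (hW f (by omega) (by omega)) (by omega) (by omega) (by omega) (by omega) (by omega)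
        (by omega)
      omega
    · -- `x = β h`
      have hxb : x = β h := by omega
      have hcase : β h - d1 + 1 ≤ h - 1 := by omega
      have := K.alpha (a := -(h - d1 + 1)) (k := (h - d1 + 1) + 1) (d := d1 - 1)
        (hW (h - d1 + 1) (by omega) (by omega)) (by omega) (by omega) (by omega) (by omega)
        (by omega)
      omega
  · rcases le_or_gt x (2 * h) with hx2 | hx2
    · -- `x = n - 1`
      by_cases hb1 : β 1 = 1
      · have := K.alphaUp (e := 1) (d := h) (by omega) (by omega) hb1 (by omega) (by omega)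
          (by omega) (by omega)
        omega
      · have h1 := K.le 1
        have h2 := hD2 1 le_rfl (by norm_num) (by simpa using e0)
        have h3 : β (2 * h + t - 1 - m) ≤ -S := hlow _ (by omega)
        have h4 := K.le (2 * h + t - 1 - m)
        have := K.zeta (a := -(h - 1 - u)) (k := (h - 1 - u) + 1) (q := 2 * h) (d := 1)
          (hW (h - 1 - u) (by omega) (by omega)) (by omega) (by omega) (by omega) (by omega)
          (by omega) (by omega) (by omega) (by omega) (by omega) (by omega) (by omega)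
          (by omega)
        omega
    · -- `x = d + n - 2`
      obtain ⟨d, hd0⟩ : ∃ d : ℤ, d = x - (2 * h - 1) := ⟨_, rfl⟩
      obtain ⟨δ, hδ1, hδ2, hδ3, -⟩ := K.toNear.exists_start (S := n) (fun y => by
        have := hb y; omega) d
      have hδ0 : 1 ≤ δ := by
        by_contra hcon
        have h1 : β δ ≤ β 0 := K.mono (by omega)
        have h2 := K.le d
        omega
      rcases le_or_gt 3 δ with hδ | hδ
      · have := K.alpha (a := -(h - δ + 1)) (k := (h - δ + 1) + 1) (d := δ - 1)
          (hW (h - δ + 1) (by omega) (by omega)) (by omega) (by omega) (by omega) (by omega)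
          (by omega)
        omega
      · have h1 := hD2 δ hδ0 (by omega) hδ3
        have h2 := K.le d
        have h3 : β (x + t - 1 - m) ≤ -S := hlow _ (by omega)
        have h4 := K.le (x + t - 1 - m)
        have := K.zeta (a := -(h + 1 - u - d)) (k := (h + 1 - u - d) + 1) (q := x) (d := d)
          (hW (h + 1 - u - d) (by omega) (by omega)) (by omega) (by omega) (by omega) (by omega)
          (by omega) (by omega) (by omega) (by omega) (by omega) (by omega) (by omega)
          (by omega)
        omega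

/-- the conclusion of `big_L2` for a block ending anywhere, together with the gap -/
theorem big_next (N : Near c n t m v β) (h u : ℕ) (hn : n = 2 * h + 1) (hu : t = 2 * u)
    (hb : ∀ x, 2 * (β x - x) + 4 + t ≤ 2 * n) {S e : ℤ} (he : β e = e) (hB : β (e - S + 1) = e)
    (hB' : β (e - S) = e - S) (hS : h + u ≤ S) :
    ∃ d1 : ℤ, β (d1 - 1) = d1 - 1 ∧ t ≤ d1 - e ∧ d1 - e ≤ 2 * h - S ∧
      h ≤ β d1 - d1 + 1 ∧ e + 3 * h - 1 + u - S ≤ β d1 := by
  have hm := N.hm
  have ht3 := N.ht
  have htn := N.htn
  have hS2 : S ≤ 2 * h - u := by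
    have := hb (e - S + 1)
    omega
  -- the chord `(e, e + 2)` has a label
  obtain ⟨L, hL1, hL2, hL3⟩ := N.toBase.absent (L := m - 1) (Or.inr (by omega))
  have W := Wk.arc (c := c) (v := v) (x := e + m) (y := e + 2) (l := e + 2) (r := e + m)
    (z := e + m) (Or.inr ⟨rfl, rfl⟩) (by omega) (by omega)
  obtain ⟨q, hq, hq'⟩ := uno N.F W hL3 hL2 (by omega) (by omega) (by omega)
  have hb2 : ∀ x, 2 * ((β (x + e) - e) - x) + 4 + t ≤ 2 * n := by
    intro x
    have := hb (x + e)
    omega
  have K : Kill c n t m (fun x => v (x + e)) (fun x => β (x + e) - e) 2 (q - e) := by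
    refine ⟨N.shift e, ?_, by norm_num, by omega, ?_, by omega, by omega⟩
    · show β (0 + e) - e = 0
      rw [zero_add, he]; ring
    · refine Col.shiftFrame e ?_
      exact hq.symm.shift1 N.F (by omega) (by omega) (by omega)
  obtain ⟨d1, hd1, hd2, hd3, -⟩ := N.exists_start (S := n) (fun y => by
        have := hb y; omega) (h + e)
  have hge : e + 1 ≤ d1 := by
    by_contra hcon
    have h1 : β d1 ≤ β e := N.mono (by omega)
    have h2 := N.le (h + e)
    omega
  obtain ⟨r1, r2⟩ := big_L2 K h u hn hu hb2 (S := S) (d1 := d1 - e)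
    (by show β (-S + 1 + e) - e = 0; rw [show -S + 1 + e = e - S + 1 by ring, hB]; ring)
    (by show β (-S + e) - e = -S; rw [show -S + e = e - S by ring, hB']; ring) hS
    (by show β (d1 - e + e) - e = β (h + e) - e; rw [show d1 - e + e = d1 by ring, hd2])
    (by
      show β (d1 - e - 1 + e) - e = d1 - e - 1
      rw [show d1 - e - 1 + e = d1 - 1 by ring, hd3]; ring) (by omega)
  have r1' : (h : ℤ) ≤ β (h + e) - e - (d1 - e) + 1 := r1
  have r2' : 3 * h - 1 + u - S ≤ β (h + e) - e := r2
  rw [← hd2] at r1' r2'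
  have hgap : t ≤ d1 - e := by
    by_contra hcon
    have := d2 N ⟨u, by omega⟩ hb (p1 := e - S + 1) (q1 := e) (p2 := d1) (q2 := β d1) hB
      (by rw [show e - S + 1 - 1 = e - S by ring]; exact hB') rfl (by omega) (by omega)
    omega
  refine ⟨d1, hd3, hgap, ?_, by omega, by omega⟩
  -- the U-kill
  by_contra hcon
  push Not at hcon
  have hdn : d1 - e ≤ h := by omega
  exact ukill0 (N.shift e) u hu hb2 (S := S) (d1 := d1 - e) (d2 := β d1 - e)
    (p := max (d1 - e - u) (n - 1 - S))
    (by show β (0 + e) - e = 0; rw [zero_add, he]; ring)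
    (by show β (-S + 1 + e) - e = 0; rw [show -S + 1 + e = e - S + 1 by ring, hB]; ring)
    (by show β (d1 - e + e) - e = β d1 - e; rw [show d1 - e + e = d1 by ring])
    (by
      show β (d1 - e - 1 + e) - e = d1 - e - 1
      rw [show d1 - e - 1 + e = d1 - 1 by ring, hd3]; ring)
    (by omega) (by omega) (by omega) (by omega) (by omega) (by omega) (by omega)

theorem big_kill (N : Near c n t m v β) (ht : Even t)
    (hb : ∀ x, 2 * (β x - x) + 4 + t ≤ 2 * n) {S e : ℤ} (he : β e = e) (hB : β (e - S + 1) = e)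
    (hB' : β (e - S) = e - S) (h : n - 1 + t ≤ 2 * S) : False := by
  obtain ⟨g, hg⟩ := N.hn
  obtain ⟨u, hu⟩ := ht
  have hu' : t = 2 * u := by omega
  have hm := N.hm
  have ht3 := N.ht
  have htn := N.htn
  obtain ⟨d1, a1, a2, a3, a4, a5⟩ := big_next N g u hg hu' hb he hB hB' (by omega)
  -- the block `D = [d1, d2]`
  have hid := N.idem d1
  obtain ⟨S', hS'⟩ : ∃ S', S' = β d1 - d1 + 1 := ⟨_, rfl⟩
  obtain ⟨e1, b1, b2, b3, b4, b5⟩ := big_next N g u hg hu' hb (e := β d1) (S := S') hid
    (by rw [show β d1 - S' + 1 = d1 by omega]) (by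
      rw [show β d1 - S' = d1 - 1 by omega]; exact a1) (by omega)
  -- the block `B + m`
  have p1 : β (e + m) = e + m := by rw [N.per, he]
  have p2 : β (e + m - S + 1) = e + m := by
    rw [show e + (m : ℤ) - S + 1 = e - S + 1 + m by ring, N.per, hB]
  have p3 : β (e + m - S) = e + m - S := by
    rw [show e + (m : ℤ) - S = e - S + m by ring, N.per, hB']
  have hle := N.le e1
  rcases lt_or_ge (e + m - S) e1 with hc | hc
  · -- `e1` is in `B + m` (it cannot be larger than `e + m`)
    have h1 : e1 ≤ e + m := by omega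
    have h2 : e1 = e + m - S + 1 := by
      by_contra hne
      have := N.blk (e + m - S + 1) (e1 - 1) (by omega) (by omega)
      omega
    omega
  · have h1 : β e1 ≤ e + m - S := by
      have := N.mono hc
      omega
    have h2 : ¬ (e + m - S + 1 ≤ β e1 + t - 1) := by
      intro h3
      have := d2 N ⟨u, hu⟩ hb (p1 := e1) (q1 := β e1) (p2 := e + m - S + 1) (q2 := e + m) rfl b1
        p2 (by omega) h3
      omega
    omega

end Pool.Agent.helper94.RB
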