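import Mathlib
import Pool.Agent.helper94.RB.Near
import Pool.Agent.helper94.RB.Hit

set_option autoImplicit false

/-! # Module G: `t` even, the largest block has size `S` with `t - 1 ≤ S ≤ (n - 3 + t) / 2` -/

namespace Pool.Agent.helper94.RB

open Pool.Agent.helper94.Rainbow Pool.Agent.helper94.RainbowTwice

variable {V C : Type} {c : Sym2 V → C} {n t m : ℕ} {v : ℤ → V} {β : ℤ → ℤ} {s x : ℤ}

/-- `hit` with linear conclusions -/
theorem large_hit (N : Near c n t m v β) (ht : Even t) (e0 : β 0 = 0) {S : ℤ}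
    (hS : ∀ x, β x ≤ x + S - 1) (hB : β (-S + 1) = 0) (hSt : t - 1 ≤ S)
    (h2 : 2 * S ≤ n - 3 + t) (ψ : ℤ) (h0 : 0 ≤ ψ) (hψ : ψ ≤ n - 3 - t) (he : Even ψ) :
    ∃ a J : ℤ, a ≤ 0 ∧ 0 ≤ J ∧ ψ = -2 * a - J ∧ -ψ ≤ a ∧ 2 * S + J ≤ n - 3 + t ∧
      ((J = 0 ∧ -S < a) ∨ 2 * S ≤ ψ) ∧ Wk c v a 0 a 0 (β a) 0 a (ψ + a + 1) := by
  obtain ⟨a, j, h1, h3, h4, h5, W⟩ := hit N ht e0 hS hB hSt ψ h0 he
  have htt := N.ht
  obtain ⟨J, hJ⟩ : ∃ J : ℤ, J = j * (t - 2) := ⟨_, rfl⟩
  rw [← hJ] at h4
  refine ⟨a, J, h1, ?_, h4, ?_, ?_, ?_, W⟩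
  · rw [hJ]
    exact mul_nonneg h3 (by omega)
  · rcases h5 with ⟨h5, h6⟩ | ⟨h5, h6⟩
    · rw [h5, zero_mul] at hJ
      omega
    · obtain ⟨P, hP⟩ : ∃ P : ℤ, P = (j - 1) * t := ⟨_, rfl⟩
      have : J = P + t - 2 * j := by rw [hJ, hP]; ring
      rw [← hP] at h6
      omega
  · rcases h5 with ⟨h5, h6⟩ | ⟨h5, h6⟩
    · rw [h5, zero_mul] at hJ
      omega
    · obtain ⟨P, hP⟩ : ∃ P : ℤ, P = (j - 1) * t := ⟨_, rfl⟩
      have : J = P + t - 2 * j := by rw [hJ, hP]; ring
      rw [← hP] at h6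
      omega
  · rcases h5 with ⟨h5, h6⟩ | ⟨h5, h6⟩
    · rw [h5, zero_mul] at hJ
      exact Or.inl ⟨hJ, h6⟩
    · right
      have : 0 ≤ (j - 1) * (t : ℤ) := mul_nonneg (by omega) (by omega)
      linarith

theorem large_kill0 (K : Kill c n t m v β 2 x) (ht : Even t) {S : ℤ}
    (hS : ∀ x, β x ≤ x + S - 1) (hB : β (-S + 1) = 0) (h1 : t - 1 ≤ S) (h2 : 2 * S ≤ n - 3 + t) :
    False := by
  have hm := K.hm
  have ht3 := K.ht
  have htn := K.htn
  have hx0 := K.x0
  have hxm := K.xm
  have hno := K.hn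
  have e0 := K.e0
  obtain ⟨t', ht'⟩ := ht
  obtain ⟨n', hn'⟩ := hno
  have hev : Even t := ⟨t', ht'⟩
  have hlong := K.long le_rfl (by omega)
  -- the block of `0`
  have hblk : ∀ a, -S + 1 ≤ a → a ≤ 0 → β a = 0 := by
    intro a ha ha'
    have := K.blk (-S + 1) a ha (by rw [hB]; exact ha')
    rw [this, hB]
  -- killing by a block `[δ1, δ2]` with `δ2 ≥ n - 1`
  have hal : ∀ d : ℤ, 2 ≤ d → 2 * d ≤ n - 1 → n - 1 ≤ β d → d + n - 2 ≤ x → x ≤ m - S → False := by
    intro d hd hd2 hd3 hx1 hx2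
    obtain ⟨δ, g1, g2, g3, g4⟩ := K.exists_start (S := S - 1)
      (fun z => by have := hS z; omega) d
    have W := dw_block K.toNear (a := δ - (n' + 1)) (by omega) (hblk _ (by omega) (by omega))
    have := K.alpha (d := δ - 1) W (by omega) (by omega) (by omega) (by rw [g3]; omega) (by omega)
    rw [g3] at this
    omega
  rcases lt_or_ge x (n - 1) with c1 | c1
  · -- case (2)
    obtain ⟨ψ, hψ⟩ : ∃ ψ : ℤ, ψ = max 0 (n - 3 - t - 2 * (x - 2)) := ⟨_, rfl⟩
    obtain ⟨a, J, w1, w2, w3, w4, w5, w6, W⟩ := large_hit K.toNear hev e0 hS hB h1 h2 ψ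
      (by omega) (by omega) (by
        rcases le_total 0 ((n : ℤ) - 3 - t - 2 * (x - 2)) with h | h
        · rw [hψ, max_eq_right h]
          exact ⟨n' - 1 - t' - (x - 2), by omega⟩
        · rw [hψ, max_eq_left h]
          exact ⟨0, rfl⟩)
    obtain ⟨r, hr⟩ : ∃ r : ℤ, n - 3 - t - ψ = 2 * r := by
      rcases le_total 0 ((n : ℤ) - 3 - t - 2 * (x - 2)) with h | h
      · exact ⟨x - 2, by omega⟩
      · exact ⟨n' - 1 - t', by omega⟩
    have hb := hS (2 + r - n + 1)
    have hb' := K.le (2 + r - n + 1)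
    have := K.beta (y := 2 + r) (b := 2 + r - n + 1) W w1 rfl (by omega) (by omega) (by omega)
      (by omega)
    omega
  rcases eq_or_lt_of_le c1 with c2 | c2
  · -- case (3)
    by_cases hβ1 : β 1 = 1
    · obtain ⟨r, hr⟩ : ∃ r : ℤ, n - 3 - t = 2 * r := ⟨n' - 1 - t', by omega⟩
      have hb := hS (2 + r - n + 1)
      have hb' := K.le (2 + r - n + 1)
      have := K.betaUp (e := 1) (y := 2 + r) (b := 2 + r - n + 1) (by omega) (by omega) hβ1 rfl
        (by omega) (by omega) (by omega) (by omega) (by omega)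
      omega
    · have hb1 := K.le 1
      obtain ⟨a, J, w1, w2, w3, w4, w5, w6, W⟩ := large_hit K.toNear hev e0 hS hB h1 h2 (n - 3 - t)
        (by omega) le_rfl ⟨n' - 1 - t', by omega⟩
      have q1 := hS (n - 1 + t - 1 - m)
      have q2 := hS 1
      have q3 := K.le (n - 1 + t - 1 - m)
      have := K.zeta (q := n - 1) (d := 1) W w1 le_rfl (by omega) (by omega) (by omega) (by omega)
        (by omega) (by omega) (by omega) (by omega) (by omega) (by omega)
      omega
  obtain ⟨i, hi⟩ : ∃ i : ℤ, x = n + i := ⟨x - n, by ring⟩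
  rcases le_or_gt (2 * i) (n - 3 - t) with c3 | c3
  · -- case (4)
    obtain ⟨a, J, w1, w2, w3, w4, w5, w6, W⟩ := large_hit K.toNear hev e0 hS hB h1 h2
      (n - 3 - t - 2 * i) (by omega) (by omega) ⟨n' - 1 - t' - i, by omega⟩
    have q1 := hS (x + t - 1 - m)
    have q2 := hS (2 + i)
    have q3 := K.le (x + t - 1 - m)
    have := K.zeta (q := x) (d := 2 + i) W w1 (by omega) (by omega) (by omega) (by omega)
      (by omega) (by omega) (by omega) (by omega) (by omega) (by omega) (by omega)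
    omega
  rcases lt_or_ge (2 * i) (n - 3) with c4 | c4
  · -- case (4')
    by_cases hβ : β (2 + i) ≤ n - 2
    · have W := dw_block K.toNear (a := 0) le_rfl e0
      obtain ⟨r, hr⟩ : ∃ r : ℤ, n - 3 - t = 2 * r := ⟨n' - 1 - t', by omega⟩
      have q1 := hS (n + r + t - 1 - m)
      have q3 := K.le (n + r + t - 1 - m)
      have := K.zeta (q := n + r) (d := 2 + i) W le_rfl (by omega) (by omega) (by omega) (by omega)
        (by omega) (by omega) (by omega) (by omega) (by omega) (by omega) (by omega)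
      omega
    · exact hal (2 + i) (by omega) (by omega) (by omega) (by omega) (by omega)
  rcases le_or_gt x (m - S) with c5 | c5
  · -- case (4'')
    by_cases hβ : β n' ≤ n - 2
    · have W := dw_block K.toNear (a := 0) le_rfl e0
      have := K.alpha (d := n') W le_rfl (by omega) (by omega) (by omega) (by omega)
      omega
    · exact hal n' (by omega) (by omega) (by omega) (by omega) (by omega)
  · -- case (5)
    obtain ⟨w, J, w1, w2, w3, w4, w5, w6, W⟩ := large_hit K.toNear hev e0 hS hB h1 h2 (n - 3 - t)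
      (by omega) le_rfl ⟨n' - 1 - t', by omega⟩
    have hxB := hblk (x - m) (by omega) (by omega)
    rcases le_or_gt w (x - m) with c6 | c6
    · obtain ⟨a, ha⟩ : ∃ a : ℤ, a = x - m + 1 := ⟨_, rfl⟩
      have W' := dw_block K.toNear (a := a) (by omega) (hblk _ (by omega) (by omega))
      obtain ⟨r, hr⟩ : ∃ r : ℤ, n - 3 - t = 2 * r := ⟨n' - 1 - t', by omega⟩
      have q1 := hS (2 + r + a - n + 1)
      have q3 := K.idem (2 + r + a - n + 1)
      have := K.beta (y := 2 + r + a) (b := 2 + r + a - n + 1) W' (by omega) rfl (by omega)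
        (by omega) (by omega) (by omega)
      rcases this with h | h | h | h | h
      · omega
      · omega
      · omega
      · rw [show β (2 + r + a - n + 1) = x - m by omega, hxB] at q3
        omega
      · omega
    · have q1 := hS (1 - n + 1)
      have q3 := K.idem (1 - n + 1)
      have := K.betaW (y := 1) (b := 1 - n + 1) W w1 rfl (by omega) le_rfl (by omega) (by omega)
        (by omega) (by omega)
      rcases this with h | h | h | h | h
      · omega
      · omega
      · omega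
      · rw [show β (1 - n + 1) = x - m by omega, hxB] at q3
        omega
      · omega

theorem large_kill (N : Near c n t m v β) (ht : Even t) {S e : ℤ}
    (hS : ∀ x, β x ≤ x + S - 1) (he : β e = e) (hB : β (e - S + 1) = e) (h1 : t - 1 ≤ S)
    (h2 : 2 * S ≤ n - 3 + t) : False := by
  have N' := N.shift e
  have hm := N.hm
  have ht3 := N.ht
  have htn := N.htn
  obtain ⟨L, hL1, hL2, hL3⟩ := N'.toBase.absent (L := m - 1) (Or.inr (by omega))
  have W := Wk.arc (c := c) (v := fun x => v (x + e)) (x := m) (y := 2) (l := 2) (r := m) (z := m)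
    (Or.inr ⟨rfl, rfl⟩) (by omega) (by omega)
  obtain ⟨q, hq, hq'⟩ := uno N'.F W hL3 hL2 (by omega) (by omega) (by omega)
  have K : Kill c n t m (fun x => v (x + e)) (fun x => β (x + e) - e) 2 q :=
    { N' with
      e0 := by simp [he]
      hs := by norm_num
      hsm := by omega
      hX := (hq.shift1 N'.F (x' := 2) (y' := 0) (g' := q) (by omega) (by omega) (by omega)).symm
      x0 := by omega
      xm := by omega }
  refine large_kill0 K ht (S := S) (fun z => ?_) ?_ h1 h2
  · have := hS (z + e)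
    show β (z + e) - e ≤ z + S - 1
    omega
  · show β (-S + 1 + e) - e = 0
    rw [show -S + 1 + e = e - S + 1 by ring, hB, sub_self]

end Pool.Agent.helper94.RB
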