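import Mathlib
import Pool.Agent.helper94.RB.Near
import Pool.Agent.helper94.RB.Fact1

set_option autoImplicit false

/-! # Module A: the near dichotomy for even `t` -/

namespace Pool.Agent.helper94.RB

open Pool.Agent.helper94.Rainbow Pool.Agent.helper94.RainbowTwice

variable {V C : Type} {c : Sym2 V → C} {n t m : ℕ} {v : ℤ → V} {cc hh : ℤ → ℤ}

namespace EvenA

theorem nt (L : Lbl c n t m v cc hh) {p i : ℤ} (h : hh p ≤ p + n - 2) (h1 : p ≤ i)
    (h2 : i ≤ hh p) : cc i = hh p :=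
  L.fact1 h1 (by omega) h2 (by omega)

theorem ft (L : Lbl c n t m v cc hh) {p i : ℤ} (h : p + n - 1 ≤ hh p) (h1 : hh p - n + 2 ≤ i)
    (h2 : i ≤ p + n - 2) : cc i = hh p :=
  L.fact1 (by omega) h2 (by omega) (by omega)

/-- the chord `H_{e+u}` for an end `e` -/
theorem nxt (L : Lbl c n t m v cc hh) {u : ℕ} (hu : t = 2 * u) (hu2 : 2 ≤ u) {e : ℤ}
    (he : cc e = e) : hh (e + u) ≤ e + n - 2 := by
  have h := L.P1 u hu (e + u)
  rw [show e + (u : ℤ) - u = e by ring, he] at h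
  omega

theorem nxt_le (L : Lbl c n t m v cc hh) {u : ℕ} {e : ℤ} : e + u ≤ hh (e + u) := L.hlo _

theorem nxt_cc (L : Lbl c n t m v cc hh) {u : ℕ} (hu : t = 2 * u) (hu2 : 2 ≤ u) {e i : ℤ}
    (he : cc e = e) (h1 : e + u ≤ i) (h2 : i ≤ hh (e + u)) : cc i = hh (e + u) := by
  have h := nxt L hu hu2 he
  exact nt L (by omega) h1 h2

theorem nxt_end (L : Lbl c n t m v cc hh) {u : ℕ} (hu : t = 2 * u) (hu2 : 2 ≤ u) {e : ℤ}
    (he : cc e = e) : cc (hh (e + u)) = hh (e + u) :=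
  nxt_cc L hu hu2 he (L.hlo _) le_rfl

theorem cc2 (L : Lbl c n t m v cc hh) {u : ℕ} (hu : t = 2 * u) {e X : ℤ}
    (hX : 2 ≤ X) (hXu : X ≤ u) : X ≤ cc e - e ∨ cc (e + X) - (e + X) ≤ n - 2 - X := by
  have h1 := L.hm
  have h2 := L.htn
  exact L.CC e X (by omega) (by omega) (Or.inr (by omega))

theorem S1 (L : Lbl c n t m v cc hh) {u : ℕ} (hu : t = 2 * u) (hu2 : 2 ≤ u) {e s : ℤ}
    (he : cc e = e) (hs : cc s = s + n - 2) (h1 : e < s) (h2 : s ≤ hh (e + u)) : s = e + 1 := by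
  have h3 := nxt L hu hu2 he
  by_contra hne
  rcases lt_or_ge s (e + u) with h4 | h4
  · have h5 := cc2 L hu (e := e) (X := s - e) (by omega) (by omega)
    rw [show e + (s - e) = s by ring, hs, he] at h5
    omega
  · have h5 := nxt_cc L hu hu2 he h4 h2
    omega

theorem S2a (L : Lbl c n t m v cc hh) {u : ℕ} (hu : t = 2 * u) (hu2 : 2 ≤ u) {s : ℤ}
    (hs : cc s = s + n - 2) : ∀ (k : ℕ) (e : ℤ), cc e = e → e < s → s - e ≤ k →
    cc (s - 1) = s - 1 := by
  intro k
  induction k with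
  | zero => intro e he h1 h2; exfalso; push_cast at h2; omega
  | succ k ih =>
    intro e he h1 h2
    push_cast at h2
    rcases le_or_gt s (hh (e + u)) with h3 | h3
    · have := S1 L hu hu2 he hs h1 h3
      rw [this, show e + 1 - 1 = e by ring]; exact he
    · have h4 : e + u ≤ hh (e + u) := L.hlo _
      exact ih (hh (e + u)) (nxt_end L hu hu2 he) h3 (by omega)

theorem m_pos (L : Lbl c n t m v cc hh) : 1 ≤ (m : ℤ) := by
  have h1 := L.hm
  have h2 := L.htn
  have h3 := L.ht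
  omega

theorem end_below (L : Lbl c n t m v cc hh) {e0 : ℤ} (he : cc e0 = e0) (k : ℕ) :
    ∃ e, cc e = e ∧ e ≤ e0 - k := by
  induction k with
  | zero => exact ⟨e0, he, by simp⟩
  | succ k ih =>
    obtain ⟨e, h1, h2⟩ := ih
    have h3 := L.cper (e - m)
    rw [show e - (m : ℤ) + m = e by ring, h1] at h3
    have h4 := m_pos L
    refine ⟨e - m, by omega, ?_⟩
    push_cast
    omega

theorem start_above (L : Lbl c n t m v cc hh) {s0 : ℤ} (hs : cc s0 = s0 + n - 2) (k : ℕ) :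
    ∃ s, cc s = s + n - 2 ∧ s0 + k ≤ s := by
  induction k with
  | zero => exact ⟨s0, hs, by simp⟩
  | succ k ih =>
    obtain ⟨s, h1, h2⟩ := ih
    have h3 := L.cper s
    have h4 := m_pos L
    refine ⟨s + m, by omega, ?_⟩
    push_cast
    omega

theorem S2 (L : Lbl c n t m v cc hh) {u : ℕ} (hu : t = 2 * u) (hu2 : 2 ≤ u) {e0 s : ℤ}
    (he : cc e0 = e0) (hs : cc s = s + n - 2) : cc (s - 1) = s - 1 := by
  obtain ⟨e, h1, h2⟩ := end_below L he (e0 - s + 1).toNat
  exact S2a L hu hu2 hs (s - e).toNat e h1 (by omega) (by omega)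

/-- if `e` is an end and `next(e) + 1` is a start then `e + 1` is a start -/
theorem S3 (L : Lbl c n t m v cc hh) {u : ℕ} (hu : t = 2 * u) (hu2 : 2 ≤ u) {e s : ℤ}
    (he : cc e = e) (hs : cc s = s + n - 2) (hse : s = hh (e + u) + 1) :
    cc (e + 1) = e + 1 + n - 2 ∧ hh (s - (n - 2) - u) = e + 1 + n - 2 := by
  have hn := L.htn
  have hP := L.P2 u hu (s - (n - 2) - u)
  rw [show s - ((n : ℤ) - 2) - u + n - 2 + u = s by ring, hs] at hP
  obtain ⟨b, hb⟩ : ∃ b, b = s - ((n : ℤ) - 2) - u := ⟨_, rfl⟩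
  rw [← hb] at hP ⊢
  have hF : b + n - 1 ≤ hh b := by omega
  have hhi := L.hhi b
  have h0 : e + u ≤ hh (e + u) := L.hlo _
  have h0' := nxt L hu hu2 he
  have hs' : cc (hh b - n + 2) = hh b - n + 2 + n - 2 := by
    rw [ft L hF le_rfl (by omega)]; ring
  have he' := S2 L hu hu2 he hs'
  have key : e < hh b - n + 2 := by
    by_contra hcon
    have h1 : cc e = hh b := ft L hF (by omega) (by omega)
    have h2 : cc (hh b - n + 2 - 1 + u) = hh b := ft L hF (by omega) (by omega)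
    have h3 := nxt L hu hu2 he'
    have h4 := nxt_cc L hu hu2 he' le_rfl (L.hlo _)
    omega
  have h5 := S1 L hu hu2 he hs' key (by omega)
  rw [h5] at hs'
  exact ⟨hs', by omega⟩

theorem S4 (L : Lbl c n t m v cc hh) {u : ℕ} (hu : t = 2 * u) (hu2 : 2 ≤ u) :
    ∀ (k : ℕ) (e s : ℤ), cc e = e → cc s = s + n - 2 → e < s → s - e ≤ k →
    cc (e + 1) = e + 1 + n - 2 := by
  intro k
  induction k with
  | zero => intro e s he hs h1 h2; exfalso; push_cast at h2; omega
  | succ k ih =>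
    intro e s he hs h1 h2
    push_cast at h2
    rcases le_or_gt s (hh (e + u)) with h3 | h3
    · have := S1 L hu hu2 he hs h1 h3
      rw [← this]; exact hs
    · have h4 : e + u ≤ hh (e + u) := L.hlo _
      have h5 := ih (hh (e + u)) s (nxt_end L hu hu2 he) hs h3 (by omega)
      exact (S3 L hu hu2 he h5 rfl).1

theorem S4' (L : Lbl c n t m v cc hh) {u : ℕ} (hu : t = 2 * u) (hu2 : 2 ≤ u) {s0 e : ℤ}
    (hs : cc s0 = s0 + n - 2) (he : cc e = e) : cc (e + 1) = e + 1 + n - 2 := by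
  obtain ⟨s, h1, h2⟩ := start_above L hs (e - s0 + 1).toNat
  exact S4 L hu hu2 (s - e).toNat e s he h1 (by omega) (by omega)

theorem S5 (L : Lbl c n t m v cc hh) {u : ℕ} (hu : t = 2 * u) (hu2 : 2 ≤ u) {s0 e : ℤ}
    (hs : cc s0 = s0 + n - 2) (he : cc e = e) : hh (e + u) = e + u := by
  by_contra hne
  have h0 : e + u ≤ hh (e + u) := L.hlo _
  have h1 := nxt_cc L hu hu2 he (i := hh (e + u) - 1) (by omega) (by omega)
  have h2 := cc2 L hu (e := hh (e + u) - 1) (X := 2) le_rfl (by omega)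
  have h3 := S4' L hu hu2 hs (nxt_end L hu hu2 he)
  rw [show hh (e + u) - 1 + 2 = hh (e + u) + 1 by ring] at h2
  omega

theorem E1 (L : Lbl c n t m v cc hh) {u : ℕ} (hu : t = 2 * u) (hu2 : 2 ≤ u) {s0 e : ℤ}
    (hs : cc s0 = s0 + n - 2) (he : cc e = e) : cc (e + u) = e + u := by
  have h1 := S5 L hu hu2 hs he
  have h2 := nxt_end L hu hu2 he
  rwa [h1] at h2

theorem E3 (L : Lbl c n t m v cc hh) {u : ℕ} (hu : t = 2 * u) (hu2 : 2 ≤ u) {s0 e : ℤ}
    (hs : cc s0 = s0 + n - 2) (he : cc e = e) :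
    hh (e + 1 - (n - 2)) = e + 1 - (n - 2) + 2 * n - 4 := by
  have h1 := S5 L hu hu2 hs he
  have h2 := S4' L hu hu2 hs (nxt_end L hu hu2 he)
  have h3 := (S3 L hu hu2 he h2 rfl).2
  rw [h1, show e + (u : ℤ) + 1 - (n - 2) - u = e + 1 - (n - 2) by ring] at h3
  rw [h3]; ring

theorem ends (L : Lbl c n t m v cc hh) {u : ℕ} (hu : t = 2 * u) (hu2 : 2 ≤ u) {s0 e : ℤ}
    (hs : cc s0 = s0 + n - 2) (he : cc e = e) (k : ℕ) : cc (e + k * u) = e + k * u := by
  induction k with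
  | zero => simpa using he
  | succ k ih =>
    have := E1 L hu hu2 hs ih
    rw [show e + ((k + 1 : ℕ) : ℤ) * u = e + k * u + u by push_cast; ring]
    exact this

theorem ends' (L : Lbl c n t m v cc hh) {u : ℕ} (hu : t = 2 * u) (hu2 : 2 ≤ u) {s0 e : ℤ}
    (hs : cc s0 = s0 + n - 2) (he : cc e = e) (k : ℕ) (hk : 1 ≤ k) :
    hh (e + k * u) = e + k * u := by
  obtain ⟨k, rfl⟩ : ∃ j, k = j + 1 := ⟨k - 1, by omega⟩
  have := S5 L hu hu2 hs (ends L hu hu2 hs he k)
  rw [show e + ((k + 1 : ℕ) : ℤ) * u = e + k * u + u by push_cast; ring]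
  exact this

theorem dvd (L : Lbl c n t m v cc hh) {u : ℕ} (hu : t = 2 * u) (hu2 : 2 ≤ u) {s0 e : ℤ}
    (hs : cc s0 = s0 + n - 2) (he : cc e = e) : ∃ k : ℕ, (n : ℤ) - 2 = k * u := by
  have htn := L.htn
  obtain ⟨D, hD⟩ : ∃ D : ℕ, D = n * u + 3 - n := ⟨_, rfl⟩
  have hnu : 2 * n ≤ n * u := by nlinarith
  have hnu2 : n * u = (n - 2) * u + 2 * u := by
    rw [← Nat.add_mul]; congr 1; omega
  have hnu3 : 2 * (n - 2) ≤ (n - 2) * u := by nlinarith
  have hDl : 2 * u ≤ D := by omega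
  have hdm : D % u + u * (D / u) = D := Nat.mod_add_div D u
  have hr : D % u < u := Nat.mod_lt _ (by omega)
  obtain ⟨q, hq⟩ : ∃ q, q = D / u := ⟨_, rfl⟩
  obtain ⟨r, hrr⟩ : ∃ r, r = D % u := ⟨_, rfl⟩
  rw [← hq, ← hrr] at hdm
  rw [← hrr] at hr
  have hq2 : 2 ≤ q := by
    rw [hq]; exact (Nat.le_div_iff_mul_le (by omega)).2 hDl
  have hE3 := E3 L hu hu2 hs (ends L hu hu2 hs he n)
  have hbD : e + (n : ℤ) * u + 1 - (n - 2) = e + D := by
    have : (D : ℤ) = n * u + 3 - n := by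
      rw [hD, Nat.cast_sub (by omega)]; push_cast; ring
    rw [this]; ring
  rw [hbD] at hE3
  have hdmZ : (r : ℤ) + u * q = D := by exact_mod_cast hdm
  rcases Nat.lt_or_ge r 2 with h2 | h2
  · rcases Nat.lt_or_ge r 1 with h1 | h1
    · exfalso
      have h0 : r = 0 := by omega
      have hha := ends' L hu hu2 hs he (q - 1) (by omega)
      have hHH := L.HH (e + ((q - 1 : ℕ) : ℤ) * u) u (by omega) (by omega)
      rw [show e + ((q - 1 : ℕ) : ℤ) * u + u = e + D by
        rw [← hdmZ, h0, Nat.cast_sub (by omega)]; push_cast; ring, hha] at hHH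
      omega
    · have h1' : r = 1 := by omega
      refine ⟨n - q, ?_⟩
      have hqn : q ≤ n := by
        rw [hq]
        calc D / u ≤ (n * u) / u := Nat.div_le_div_right (by omega)
          _ = n := Nat.mul_div_cancel _ (by omega)
      have : (D : ℤ) = n * u + 3 - n := by
        rw [hD, Nat.cast_sub (by omega)]; push_cast; ring
      rw [Nat.cast_sub hqn]
      rw [h1', this] at hdmZ
      push_cast at hdmZ ⊢
      linarith [hdmZ, mul_comm (u : ℤ) q, sub_mul (n : ℤ) q u]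
  · exfalso
    have hha := ends' L hu hu2 hs he q (by omega)
    have hHH := L.HH (e + (q : ℤ) * u) r (by omega) (by omega)
    rw [show e + (q : ℤ) * u + r = e + D by rw [← hdmZ]; ring, hha] at hHH
    omega

theorem contra (L : Lbl c n t m v cc hh) {u : ℕ} (hu : t = 2 * u) (hu2 : 2 ≤ u) {s0 e : ℤ}
    (hs : cc s0 = s0 + n - 2) (he : cc e = e) : False := by
  obtain ⟨k, hk⟩ := dvd L hu hu2 hs he
  have htn := L.htn
  have hnodd := L.hn
  have hu3 : 3 ≤ u := by
    by_contra hcon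
    have hu' : u = 2 := by omega
    obtain ⟨j, hj⟩ := hnodd
    rw [hu'] at hk
    push_cast at hk
    omega
  have hk1 : 1 ≤ k := by
    by_contra hcon
    have : k = 0 := by omega
    rw [this] at hk
    push_cast at hk
    omega
  obtain ⟨a, ha⟩ : ∃ a, a = e + u := ⟨_, rfl⟩
  have haE : cc a = a := by rw [ha]; exact E1 L hu hu2 hs he
  have hauE : cc (a + u) = a + u := E1 L hu hu2 hs haE
  have ha' : cc (a + (n - 2)) = a + (n - 2) := by
    rw [hk]; exact ends L hu hu2 hs haE k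
  have hau' : cc (a + u + (n - 2)) = a + u + (n - 2) := by
    rw [hk]; exact ends L hu hu2 hs hauE k
  have h2 := E3 L hu hu2 hs hau'
  rw [show a + (u : ℤ) + (n - 2) + 1 - (n - 2) = a + 2 + (u - 1) by ring] at h2
  have hHH := L.HH (a + 2) (u - 1) (by omega) (by omega)
  rw [h2] at hHH
  have h3 : a + u + 1 ≤ hh (a + 2) := by omega
  rcases le_or_gt (hh (a + 2)) (a + 2 + n - 2) with h4 | h4
  · have h5 := nt L h4 (i := a + u) (by omega) (by omega)
    omega
  · have hF : a + 2 + n - 1 ≤ hh (a + 2) := by omega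
    have hhi := L.hhi (a + 2)
    rcases le_or_gt (hh (a + 2) - n + 2) (a + (n - 2)) with h5 | h5
    · have h6 := ft L hF h5 (by omega)
      omega
    · have h6 := ft L hF (i := a + 2 + n - 2) (by omega) le_rfl
      have h7 := cc2 L hu (e := a + (n - 2)) (X := 2) le_rfl (by omega)
      rw [show a + ((n : ℤ) - 2) + 2 = a + 2 + n - 2 by ring, h6, ha'] at h7
      omega

theorem final (L : Lbl c n t m v cc hh) {u : ℕ} (hu : t = 2 * u) (hu2 : 2 ≤ u)
    (h : ∀ p, hh p ≤ p + n - 2) :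
    ∃ v' β, Near c n t m v' β ∧ ∀ x, 2 * (β x - x) + 4 + t ≤ 2 * n := by
  refine ⟨v, cc, L.near h, fun x => ?_⟩
  have h1 := L.P2 u hu (x - n + 2 - u)
  have h2 := h (x - n + 2 - u)
  rw [show x - (n : ℤ) + 2 - u + n - 2 + u = x by ring] at h1
  omega

end EvenA

/-- `t` even: after a possible reflection the chords `C_x` and `H_x` form a near structure, with
all blocks of size at most `n - 1 - t / 2`. -/
theorem near_even (N : Base c n t m v) (ht : Even t) :
    ∃ v' β, Near c n t m v' β ∧ ∀ x, 2 * (β x - x) + 4 + t ≤ 2 * n := by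
  obtain ⟨u, hu⟩ := ht
  have hu : t = 2 * u := by omega
  have ht3 := N.ht
  have hu2 : 2 ≤ u := by omega
  obtain ⟨cc, hh, L⟩ := exists_lbl N
  by_cases hN : ∀ p, hh p ≤ p + n - 2
  · exact EvenA.final L hu hu2 hN
  · simp only [not_forall, not_le] at hN
    obtain ⟨p', hp'⟩ := hN
    have hs : cc (hh p' - n + 2) = hh p' - n + 2 + n - 2 := by
      have hhi := L.hhi p'
      rw [EvenA.ft L (by omega : p' + n - 1 ≤ hh p') le_rfl (by omega)]; ring
    have hF : ∀ p, p + n - 1 ≤ hh p := by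
      intro p
      by_contra hcon
      have he : cc (hh p) = hh p := EvenA.nt L (by omega) (L.hlo p) le_rfl
      exact EvenA.contra L hu hu2 hs he
    refine EvenA.final L.reflect hu hu2 (fun p => ?_)
    have := hF (-p + t - 1)
    show p + (2 * n - 4) - (hh (-p + t - 1) - (-p + t - 1)) ≤ p + n - 2
    omega

end Pool.Agent.helper94.RB
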