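import Mathlib
import Pool.Agent.helper94.RB.NearEven
import Pool.Agent.helper94.RB.NearOdd
import Pool.Agent.helper94.RB.AA
import Pool.Agent.helper94.RB.Small
import Pool.Agent.helper94.RB.VCase
import Pool.Agent.helper94.RB.Large
import Pool.Agent.helper94.RB.Big

set_option autoImplicit false

/-! # Module K: the theorem -/

namespace Pool.Agent.helper94.RB

open Pool.Agent.helper94.Rainbow Pool.Agent.helper94.RainbowTwice

variable {V C : Type} {c : Sym2 V → C} {n t m : ℕ} {v : ℤ → V} {β : ℤ → ℤ}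

/-- a largest block -/
theorem Near.exists_max (N : Near c n t m v β) {B : ℤ} (hB : ∀ x, β x - x ≤ B) :
    ∃ S e : ℤ, 1 ≤ S ∧ (∀ x, β x ≤ x + S - 1) ∧ β e = e ∧ β (e - S + 1) = e ∧
      β (e - S) = e - S := by
  obtain ⟨M, ⟨x, hx⟩, hM⟩ := Int.exists_greatest_of_bdd (P := fun z => ∃ x, β x - x = z)
    ⟨B, by rintro z ⟨x, rfl⟩; exact hB x⟩ ⟨β 0 - 0, 0, rfl⟩
  have h0 := N.le x
  refine ⟨M + 1, β x, by omega, ?_, N.idem x, ?_, ?_⟩
  · intro y
    have := hM _ ⟨y, rfl⟩
    omega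
  · rw [show β x - (M + 1) + 1 = x by omega]
  · rw [show β x - (M + 1) = x - 1 by omega]
    have h1 := N.le (x - 1)
    rcases N.lt_or (show x - 1 ≤ x by omega) with h | h
    · omega
    · have := hM _ ⟨x - 1, rfl⟩
      omega

theorem Base.false_even (N : Base c n t m v) (ht : Even t) : False := by
  obtain ⟨v', β, N', hb⟩ := near_even N ht
  have hm := N.hm
  have ht3 := N.ht
  have htn := N.htn
  obtain ⟨S, e, h1, hS, he, hB, hB'⟩ := N'.exists_max (B := n) (fun x => by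
    have := hb x; omega)
  obtain ⟨u, hu⟩ := ht
  obtain ⟨g, hg⟩ := N.hn
  rcases le_or_gt S (t - 1) with hc | hc
  · -- `n - 3 = q t + r`
    have e1 := Nat.div_add_mod (n - 3) t
    have e2 := Nat.mod_lt (n - 3) (show 0 < t by omega)
    obtain ⟨q, hq⟩ : ∃ q, q = (n - 3) / t := ⟨_, rfl⟩
    obtain ⟨r, hr⟩ : ∃ r, r = (n - 3) % t := ⟨_, rfl⟩
    rw [← hq, ← hr] at e1
    rw [← hr] at e2
    have hr2 : r % 2 = 0 := by
      have : (t * q + r) % 2 = 0 := by rw [e1]; omega
      have h3 : (t * q) % 2 = 0 := by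
        rw [hu, show (u + u) * q = 2 * (u * q) by ring]
        exact Nat.mul_mod_right 2 _
      omega
    have hq1 : 1 ≤ q := by
      rcases Nat.eq_zero_or_pos q with h0 | h0
      · rw [h0] at e1; omega
      · exact h0
    obtain ⟨l, rfl⟩ : ∃ l, q = l + 1 := ⟨q - 1, by omega⟩
    refine small_kill N' hS hc he hB l (r + 2) ?_ (by omega) (by omega) ?_
    · rw [show (l + 1) * t = t * (l + 1) by ring]; omega
    · intro hodd
      exact absurd ⟨u, hu⟩ (Nat.not_even_iff_odd.mpr hodd)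
  · rcases le_or_gt (2 * S) (n - 3 + t) with hc2 | hc2
    · exact large_kill N' ⟨u, hu⟩ hS he hB (by omega) hc2
    · exact big_kill N' ⟨u, hu⟩ hb he hB hB' (by omega)

theorem Base.false_odd (N : Base c n t m v) (ht : Odd t) : False := by
  obtain ⟨v', β, N', hb⟩ := near_odd N ht
  have hm := N.hm
  have ht3 := N.ht
  have htn := N.htn
  obtain ⟨S, e, h1, hS, he, hB, hB'⟩ := N'.exists_max (B := n) (fun x => by
    have := hb x; omega)
  obtain ⟨u, hu⟩ := ht
  obtain ⟨g, hg⟩ := N.hn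
  have e1 := Nat.div_add_mod (n - 2) t
  have e2 := Nat.mod_lt (n - 2) (show 0 < t by omega)
  obtain ⟨K, hK⟩ : ∃ q, q = (n - 2) / t := ⟨_, rfl⟩
  obtain ⟨r, hr⟩ : ∃ r, r = (n - 2) % t := ⟨_, rfl⟩
  rw [← hK, ← hr] at e1
  rw [← hr] at e2
  rcases Nat.eq_zero_or_pos r with h0 | h0
  · -- the V case
    have hKodd : K % 2 = 1 := by
      by_contra hcon
      obtain ⟨k, hk⟩ : ∃ k, K = 2 * k := ⟨K / 2, by omega⟩
      rw [hk, show t * (2 * k) = 2 * (t * k) by ring] at e1
      omega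
    obtain ⟨l, hl⟩ : ∃ l, K = 2 * l + 1 := ⟨K / 2, by omega⟩
    have e3 : 2 * l * t + t = n - 2 := by
      rw [← e1, h0, hl]; ring
    have hsize := aa N' ⟨u, hu⟩ hb l (by omega)
    have e3' : 2 * (l : ℤ) * t + t = n - 2 := by
      have : ((2 * l * t + t : ℕ) : ℤ) = ((n - 2 : ℕ) : ℤ) := by rw [e3]
      push_cast at this
      omega
    refine vcase N' (fun x => ?_) ⟨u, hu⟩ K ?_
    · have h3 := hsize x
      have h4 := N'.le x
      omega
    · rw [mul_comm]; omega
  · have hK1 : 1 ≤ K := by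
      rcases Nat.eq_zero_or_pos K with h3 | h3
      · rw [h3] at e1; omega
      · exact h3
    obtain ⟨l, rfl⟩ : ∃ l, K = l + 1 := ⟨K - 1, by omega⟩
    -- size bound
    have f1 := Nat.div_add_mod (n - t) (2 * t)
    have f2 := Nat.mod_lt (n - t) (show 0 < 2 * t by omega)
    obtain ⟨l', hl'⟩ : ∃ q, q = (n - t) / (2 * t) := ⟨_, rfl⟩
    rw [← hl'] at f1
    have f3 : 2 * l' * t = 2 * t * l' := by ring
    have hsize := aa N' ⟨u, hu⟩ hb l' (by omega) (e - S + 1)
    have f3' : 2 * (l' : ℤ) * t = ((2 * t * l' : ℕ) : ℤ) := by push_cast; ring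
    rw [hB] at hsize
    refine small_kill N' hS (by omega) he hB l (r + 1) ?_ (by omega) (by omega) ?_
    · rw [show (l + 1) * t = t * (l + 1) by ring]; omega
    · intro _ hl0
      subst hl0
      have := hb (e - S + 1)
      rw [hB] at this
      push_cast
      simp only [zero_add, mul_one] at e1
      omega

/-- Every length `m ≥ 2n - 3` implies `n`, for odd `n ≥ 7`. -/
theorem implies_all (n : ℕ) (hn : Odd n) (h7 : 7 ≤ n) (m : ℕ) (hm : 2 * n - 3 ≤ m) :
    Implies m n := by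
  intro V C _ c hrc
  by_contra hno
  classical
  have hex : ∃ L, 2 * n - 3 ≤ L ∧ HasRainbowCycle c L := ⟨m, hm, hrc⟩
  obtain ⟨h1, h2⟩ := Nat.find_spec hex
  have hmin : ∀ L, 2 * n - 3 ≤ L → L < Nat.find hex → ¬ HasRainbowCycle c L := by
    intro L hL hL2 hL3
    exact Nat.find_min hex hL2 ⟨hL, hL3⟩
  generalize Nat.find hex = m0 at h1 h2 hmin
  obtain ⟨v, F⟩ := h2.exists_frame
  obtain ⟨t, ht⟩ : ∃ t, m0 + 4 = 2 * n + t := ⟨m0 + 4 - 2 * n, by omega⟩
  have hclo := fun b (hb : 3 ≤ b) (hnb : ¬ HasRainbowCycle c b) =>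
    closure (c := c) (a := n) (b := b) (by omega) hb hno hnb
  rcases Nat.lt_or_ge t 3 with h3 | h3
  · have : m0 = 2 * n - 3 ∨ m0 = 2 * n - 2 := by omega
    rcases this with rfl | rfl
    · exact hno (implies_twice n hn h7 V C c h2)
    · exact hclo n (by omega) hno (by rw [show n + n - 2 = 2 * n - 2 by omega]; exact h2)
  · have h4 : t + 2 ≤ n := by
      by_contra hcon
      refine hclo (m0 - (n - 2)) (by omega) (hmin _ (by omega) (by omega)) ?_
      rw [show n + (m0 - (n - 2)) - 2 = m0 by omega]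
      exact h2
    have N : Base c n t m0 v :=
      ⟨F, ht, h3, h4, hn, hno, fun L hL1 hL2 => hmin L (by omega) hL2⟩
    rcases Nat.even_or_odd t with h5 | h5
    · exact N.false_even h5
    · exact N.false_odd h5

end Pool.Agent.helper94.RB
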